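import Mathlib

/-!
# Module ANALYTIC: from `n < 2 ^ (D v m)` to `m ≥ c (log n) ^ (j / (j+1))`

Let `x = log n ≥ 0`.  We find `C ≥ 1` (depending on `j`, `D`) with: for `m ≥ 1` as in the
hypothesis, `x ≤ C * m ^ ((j+1)/j)`, and take `c = 1 / C`; raise to the power `j/(j+1) ≤ 1`:
`x ^ (j/(j+1)) ≤ C ^ (j/(j+1)) * m ≤ C * m`.

Choose `v₀ = ⌊(2m)^(1/j)⌋ + 1` (so `2 m < v₀ ^ j` and `v₀ ≥ 2`, `v₀ ≤ (2m)^(1/j) + 1 ≤ 4 m^(1/j)`),
`L = Nat.clog 2 (4 m)` (so `4 m ≤ 2 ^ L` and `2 ^ (L-1) < 4 m`, i.e.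
`L ≤ 1 + log (4 m) / log 2 ≤ 3 + 2 log m ≤ (3 + 2 j) m^(1/j)`) and `v = v₀ + L`.
The hypothesis gives `x = log n ≤ D v m log 2 ≤ D * (7 + 2 j) * m^(1/j) * m`.
Take `C = max 1 ((7 + 2 j) D)`.
-/

set_option autoImplicit false

namespace H43.PS

/-- the choice of `v` -/
theorem analytic_v (j : ℕ) (hj : 1 ≤ j) (m : ℕ) (hm : 1 ≤ m) :
    ∃ v : ℕ, 2 * m < v ^ j ∧ 2 ≤ v ∧ (v : ℝ) ≤ 4 * (m : ℝ) ^ ((1 : ℝ) / j) := by
  have hj0 : (0 : ℝ) < j := by exact_mod_cast hj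
  have hj1 : (1 : ℝ) ≤ j := by exact_mod_cast hj
  have hm1 : (1 : ℝ) ≤ m := by exact_mod_cast hm
  have h2m : (1 : ℝ) ≤ 2 * m := by linarith
  set t : ℝ := (2 * (m : ℝ)) ^ ((1 : ℝ) / j) with ht
  have ht1 : 1 ≤ t := Real.one_le_rpow h2m (by positivity)
  have htj : t ^ j = 2 * m := by
    rw [ht, ← Real.rpow_natCast, ← Real.rpow_mul (by linarith)]
    rw [one_div, inv_mul_cancel₀ hj0.ne', Real.rpow_one]
  refine ⟨⌊t⌋₊ + 1, ?_, ?_, ?_⟩
  · have h1 : t < (⌊t⌋₊ + 1 : ℕ) := by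
      push_cast
      exact Nat.lt_floor_add_one t
    have h2 : t ^ j < ((⌊t⌋₊ + 1 : ℕ) : ℝ) ^ j :=
      pow_lt_pow_left₀ h1 (by linarith) (by omega)
    rw [htj] at h2
    exact_mod_cast h2
  · have : 1 ≤ ⌊t⌋₊ := Nat.le_floor (by simpa using ht1)
    omega
  · have h1 : (⌊t⌋₊ : ℝ) ≤ t := Nat.floor_le (by linarith)
    have hs1 : 1 ≤ (m : ℝ) ^ ((1 : ℝ) / j) := Real.one_le_rpow hm1 (by positivity)
    have h2 : t ≤ 2 * (m : ℝ) ^ ((1 : ℝ) / j) := by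
      rw [ht, Real.mul_rpow (by norm_num) (by linarith)]
      have : (2 : ℝ) ^ ((1 : ℝ) / j) ≤ 2 ^ (1 : ℝ) := by
        apply Real.rpow_le_rpow_of_exponent_le (by norm_num)
        rw [div_le_one hj0]; exact hj1
      rw [Real.rpow_one] at this
      nlinarith
    push_cast
    linarith

/-- the choice of `L` -/
theorem analytic_L (m : ℕ) (hm : 1 ≤ m) :
    ∃ L : ℕ, 4 * m ≤ 2 ^ L ∧ (L : ℝ) ≤ 3 + 2 * Real.log m := by
  refine ⟨Nat.clog 2 (4 * m), Nat.le_pow_clog (by norm_num) _, ?_⟩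
  have hm1 : (1 : ℝ) ≤ m := by exact_mod_cast hm
  have h1 : 2 ^ (Nat.clog 2 (4 * m)).pred < 4 * m :=
    Nat.pow_pred_clog_lt_self (by norm_num) (by omega)
  have hpos : 0 < Nat.clog 2 (4 * m) := Nat.clog_pos (by norm_num) (by omega)
  set K := (Nat.clog 2 (4 * m)).pred with hK
  have hKs : Nat.clog 2 (4 * m) = K + 1 := by
    rw [hK]; exact (Nat.succ_pred_eq_of_pos hpos).symm
  have h2 : ((2 : ℝ)) ^ K < 4 * m := by exact_mod_cast h1
  have h3 : (K : ℝ) * Real.log 2 < Real.log (4 * m) := by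
    rw [← Real.log_pow]
    exact Real.log_lt_log (by positivity) h2
  have h4 : Real.log (4 * (m : ℝ)) = 2 * Real.log 2 + Real.log m := by
    rw [Real.log_mul (by norm_num) (by linarith)]
    have : Real.log 4 = 2 * Real.log 2 := by
      rw [show (4 : ℝ) = 2 ^ 2 by norm_num, Real.log_pow]; norm_num
    rw [this]
  have hl2 := Real.log_two_gt_d9
  have hlm : 0 ≤ Real.log m := Real.log_nonneg hm1
  rw [h4] at h3
  rw [hKs]
  push_cast
  have h5 : ((K : ℝ) - 2) * Real.log 2 < Real.log m := by linarith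
  by_contra hcon
  push Not at hcon
  have h6 : 2 * Real.log m < (K : ℝ) - 2 := by linarith
  nlinarith

theorem analytic (j : ℕ) (hj : 1 ≤ j) (D : ℕ) : ∃ c : ℝ, 0 < c ∧ ∀ n m : ℕ, 1 ≤ n → 1 ≤ m →
    (∀ v L : ℕ, 2 * m < v ^ j → 2 ≤ v → L ≤ v → 4 * m ≤ 2 ^ L → n < 2 ^ (D * v * m)) →
    c * (Real.log n) ^ ((j : ℝ) / ((j : ℝ) + 1)) ≤ m := by
  set C : ℝ := max 1 ((7 + 2 * j) * D) with hC
  have hC1 : 1 ≤ C := le_max_left _ _
  have hC2 : (7 + 2 * j) * (D : ℝ) ≤ C := le_max_right _ _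
  have hC0 : 0 < C := by linarith
  have hj0 : (0 : ℝ) < j := by exact_mod_cast hj
  refine ⟨1 / C, by positivity, ?_⟩
  intro n m hn hm H
  have hm1 : (1 : ℝ) ≤ m := by exact_mod_cast hm
  have hn1 : (1 : ℝ) ≤ n := by exact_mod_cast hn
  set x : ℝ := Real.log n with hx
  have hx0 : 0 ≤ x := Real.log_nonneg hn1
  -- the main bound
  have key : x ≤ C * (m : ℝ) ^ (((j : ℝ) + 1) / j) := by
    have hmp : 0 < (m : ℝ) ^ (((j : ℝ) + 1) / j) := by positivity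
    obtain ⟨v₀, hv1, hv2, hv3⟩ := analytic_v j hj m hm
    obtain ⟨L, hL1, hL2⟩ := analytic_L m hm
    have hv1' : 2 * m < (v₀ + L) ^ j :=
      lt_of_lt_of_le hv1 (Nat.pow_le_pow_left (Nat.le_add_right _ _) _)
    have hlt := H (v₀ + L) L hv1' (by omega) (by omega) hL1
    have hlt' : (n : ℝ) < (2 : ℝ) ^ (D * (v₀ + L) * m) := by exact_mod_cast hlt
    have hlog : x < ((D * (v₀ + L) * m : ℕ) : ℝ) * Real.log 2 := by
      rw [← Real.log_pow]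
      exact Real.log_lt_log (by linarith) hlt'
    have hu1 : 1 ≤ (m : ℝ) ^ ((1 : ℝ) / j) := Real.one_le_rpow hm1 (by positivity)
    have hlm : Real.log m ≤ j * (m : ℝ) ^ ((1 : ℝ) / j) := by
      have h1 : Real.log ((m : ℝ) ^ ((1 : ℝ) / j)) = (1 : ℝ) / j * Real.log m :=
        Real.log_rpow (by linarith) _
      have h2 : Real.log ((m : ℝ) ^ ((1 : ℝ) / j)) ≤ (m : ℝ) ^ ((1 : ℝ) / j) - 1 :=
        Real.log_le_sub_one_of_pos (by linarith)
      have h3 : Real.log m = j * ((1 : ℝ) / j * Real.log m) := by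
        field_simp
      rw [h3, ← h1]
      apply mul_le_mul_of_nonneg_left _ hj0.le
      linarith
    have hvL : ((v₀ : ℝ) + L) ≤ (7 + 2 * j) * (m : ℝ) ^ ((1 : ℝ) / j) := by
      nlinarith
    have hl2 : Real.log 2 ≤ 1 := by
      have := Real.log_two_lt_d9; linarith
    have hx2 : x ≤ ((D * (v₀ + L) * m : ℕ) : ℝ) := by
      calc x ≤ ((D * (v₀ + L) * m : ℕ) : ℝ) * Real.log 2 := hlog.le
        _ ≤ ((D * (v₀ + L) * m : ℕ) : ℝ) * 1 := by gcongr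
        _ = _ := mul_one _
    have hms : (m : ℝ) ^ (((j : ℝ) + 1) / j) = (m : ℝ) ^ ((1 : ℝ) / j) * m := by
      rw [← Real.rpow_add_one (by linarith)]
      congr 1
      field_simp
      ring
    calc x ≤ ((D * (v₀ + L) * m : ℕ) : ℝ) := hx2
      _ = (D : ℝ) * (v₀ + L) * m := by push_cast; ring
      _ ≤ (D : ℝ) * ((7 + 2 * j) * (m : ℝ) ^ ((1 : ℝ) / j)) * m := by gcongr
      _ = ((7 + 2 * j) * D) * ((m : ℝ) ^ ((1 : ℝ) / j) * m) := by ring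
      _ = ((7 + 2 * j) * D) * (m : ℝ) ^ (((j : ℝ) + 1) / j) := by rw [hms]
      _ ≤ C * (m : ℝ) ^ (((j : ℝ) + 1) / j) := by gcongr
  -- raise to the power j / (j+1)
  have he0 : 0 ≤ (j : ℝ) / ((j : ℝ) + 1) := by positivity
  have he1 : (j : ℝ) / ((j : ℝ) + 1) ≤ 1 := by
    rw [div_le_one (by positivity)]; linarith
  have h1 : x ^ ((j : ℝ) / ((j : ℝ) + 1)) ≤ C * m := by
    calc x ^ ((j : ℝ) / ((j : ℝ) + 1))
        ≤ (C * (m : ℝ) ^ (((j : ℝ) + 1) / j)) ^ ((j : ℝ) / ((j : ℝ) + 1)) :=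
          Real.rpow_le_rpow hx0 key he0
      _ = C ^ ((j : ℝ) / ((j : ℝ) + 1)) * m := by
          rw [Real.mul_rpow hC0.le (by positivity), ← Real.rpow_mul (by linarith)]
          have : (((j : ℝ) + 1) / j) * ((j : ℝ) / ((j : ℝ) + 1)) = 1 := by
            field_simp
          rw [this, Real.rpow_one]
      _ ≤ C * m := by
          have : C ^ ((j : ℝ) / ((j : ℝ) + 1)) ≤ C ^ (1 : ℝ) :=
            Real.rpow_le_rpow_of_exponent_le hC1 he1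
          rw [Real.rpow_one] at this
          have hm0 : (0 : ℝ) ≤ m := by linarith
          exact mul_le_mul_of_nonneg_right this hm0
  rw [one_div, inv_mul_le_iff₀ hC0]
  exact h1

end H43.PS
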