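import Pool.Agent.H43.PS.Defs

/-!
# Module AVG: a member whose hulls miss most points

Double count the triples: `∑ S ∈ 𝒮, #{y ∈ Y : ∃ i ∈ J, InHull (f i) S (f i y)} ≤
∑ i ∈ J, ∑ y ∈ Y, #{S ∈ 𝒮 : InHull (f i) S (f i y)}`, and `4 * m * #{..} ≤ 𝒮.card` for each
`i ∈ J`, `y ∈ Y`, so `4 * m * (left side) ≤ m * Y.card * 𝒮.card`, i.e. (`1 ≤ m`)
`4 * (left side) ≤ Y.card * 𝒮.card`; hence some `S ∈ 𝒮` has `4 * #{...} ≤ Y.card`
(`Finset.exists_le_of_sum_le` or by contradiction).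
-/

set_option autoImplicit false

namespace H43.PS

open Finset
open scoped Classical in
theorem avg {ι α : Type} (f : ι → α → ℕ) (J : Finset ι) (m : ℕ) (hm : 1 ≤ m)
    (hJ : J.card ≤ m) (𝒮 : Finset (Finset α)) (h1 : 𝒮.Nonempty) (Y : Finset α)
    (H : ∀ i ∈ J, ∀ c, 4 * m * (𝒮.filter (fun S => InHull (f i) S c)).card < 𝒮.card) :
    ∃ S ∈ 𝒮, 4 * (Y.filter (fun y => ∃ i ∈ J, InHull (f i) S (f i y))).card ≤ Y.card := by
  by_contra hcon
  push Not at hcon
  -- left sum, bounded above by the double sum over `J` and `Y`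
  have hL : ∑ S ∈ 𝒮, (Y.filter (fun y => ∃ i ∈ J, InHull (f i) S (f i y))).card ≤
      ∑ i ∈ J, ∑ y ∈ Y, (𝒮.filter (fun S => InHull (f i) S (f i y))).card := by
    have h2 : ∀ S ∈ 𝒮, (Y.filter (fun y => ∃ i ∈ J, InHull (f i) S (f i y))).card ≤
        ∑ i ∈ J, ∑ y ∈ Y, (if InHull (f i) S (f i y) then 1 else 0) := by
      intro S _
      have hsub : Y.filter (fun y => ∃ i ∈ J, InHull (f i) S (f i y)) ⊆
          J.biUnion (fun i => Y.filter (fun y => InHull (f i) S (f i y))) := by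
        intro y hy
        rw [mem_filter] at hy
        obtain ⟨hyY, i, hi, hyi⟩ := hy
        exact mem_biUnion.2 ⟨i, hi, mem_filter.2 ⟨hyY, hyi⟩⟩
      refine (card_le_card hsub).trans (card_biUnion_le.trans ?_)
      apply sum_le_sum
      intro i _
      rw [card_filter]
    refine (sum_le_sum h2).trans ?_
    rw [sum_comm]
    apply sum_le_sum
    intro i _
    rw [sum_comm]
    apply sum_le_sum
    intro y _
    rw [card_filter]
  have hR : 4 * m * ∑ i ∈ J, ∑ y ∈ Y, (𝒮.filter (fun S => InHull (f i) S (f i y))).card ≤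
      m * (Y.card * 𝒮.card) := by
    rw [mul_sum]
    have h3 : ∀ i ∈ J, 4 * m * ∑ y ∈ Y, (𝒮.filter (fun S => InHull (f i) S (f i y))).card ≤
        Y.card * 𝒮.card := by
      intro i hi
      rw [mul_sum]
      calc ∑ y ∈ Y, 4 * m * (𝒮.filter (fun S => InHull (f i) S (f i y))).card
          ≤ ∑ y ∈ Y, 𝒮.card := sum_le_sum (fun y _ => (H i hi (f i y)).le)
        _ = Y.card * 𝒮.card := by rw [sum_const, smul_eq_mul]
    calc ∑ i ∈ J, 4 * m * ∑ y ∈ Y, (𝒮.filter (fun S => InHull (f i) S (f i y))).card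
        ≤ ∑ i ∈ J, Y.card * 𝒮.card := sum_le_sum h3
      _ = J.card * (Y.card * 𝒮.card) := by rw [sum_const, smul_eq_mul]
      _ ≤ m * (Y.card * 𝒮.card) := Nat.mul_le_mul_right _ hJ
  have hS : 𝒮.card * Y.card <
      4 * ∑ S ∈ 𝒮, (Y.filter (fun y => ∃ i ∈ J, InHull (f i) S (f i y))).card := by
    rw [mul_sum, ← smul_eq_mul, ← sum_const]
    exact sum_lt_sum_of_nonempty h1 hcon
  have h5 : m * (𝒮.card * Y.card) < m * (Y.card * 𝒮.card) := by
    calc m * (𝒮.card * Y.card)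
        < m * (4 * ∑ S ∈ 𝒮, (Y.filter (fun y => ∃ i ∈ J, InHull (f i) S (f i y))).card) :=
          Nat.mul_lt_mul_of_pos_left hS (by omega)
      _ ≤ m * (4 * ∑ i ∈ J, ∑ y ∈ Y, (𝒮.filter (fun S => InHull (f i) S (f i y))).card) :=
          Nat.mul_le_mul_left _ (Nat.mul_le_mul_left _ hL)
      _ = 4 * m * ∑ i ∈ J, ∑ y ∈ Y, (𝒮.filter (fun S => InHull (f i) S (f i y))).card := by ring
      _ ≤ m * (Y.card * 𝒮.card) := hR
  rw [mul_comm 𝒮.card Y.card] at h5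
  exact lt_irrefl _ h5

end H43.PS
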