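import Pool.Agent.H43.PS.Defs

/-!
# Module DICH: the dichotomy

Consider the `T ⊆ I₀` for which there is a nonempty `Q' ⊆ Q` with
`Q.card ≤ Q'.card * A ^ T.card` and common points `c i` (`i ∈ T`): `T = ∅`, `Q' = Q` is one.  Take
one with `T.card` maximal (e.g. `Finset.exists_max_image` on the filtered powerset of `I₀`).  If
for some `i ∈ I₀`, `i ∉ T` and some `c` we had `Q'.card ≤ A * (Q'.filter (H i · c)).card`, then
`insert i T` with `Q'.filter (H i · c)` (nonempty since `Q'.card ≥ 1`) would be larger: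
contradiction.
-/

set_option autoImplicit false

namespace H43.PS

open Finset
open scoped Classical in
theorem dich {ι β : Type} [DecidableEq ι] (Q : Finset β) (hQ : Q.Nonempty)
    (H : ι → β → ℕ → Prop) (I₀ : Finset ι) (A : ℕ) :
    ∃ Q' ⊆ Q, ∃ T ⊆ I₀, Q'.Nonempty ∧ Q.card ≤ Q'.card * A ^ T.card ∧
      (∀ i ∈ T, ∃ c, ∀ q ∈ Q', H i q c) ∧
      (∀ i ∈ I₀, i ∉ T → ∀ c, A * (Q'.filter (fun q => H i q c)).card < Q'.card) := by
  classical
  -- the admissible sets
  let P : Finset ι → Prop := fun T => ∃ Q' ⊆ Q, Q'.Nonempty ∧ Q.card ≤ Q'.card * A ^ T.card ∧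
      ∀ i ∈ T, ∃ c, ∀ q ∈ Q', H i q c
  have hne : (I₀.powerset.filter P).Nonempty :=
    ⟨∅, Finset.mem_filter.2 ⟨Finset.empty_mem_powerset _, Q, Finset.Subset.refl _, hQ, by simp,
      by simp⟩⟩
  obtain ⟨T, hT, hmax⟩ := Finset.exists_max_image (I₀.powerset.filter P) Finset.card hne
  rw [Finset.mem_filter, Finset.mem_powerset] at hT
  obtain ⟨hTI, Q', hQ'Q, hQ'ne, hcard, hc⟩ := hT
  refine ⟨Q', hQ'Q, T, hTI, hQ'ne, hcard, hc, ?_⟩
  intro i hi hiT c
  by_contra hlt
  push Not at hlt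
  have hne' : (Q'.filter (fun q => H i q c)).Nonempty := by
    rw [Finset.nonempty_iff_ne_empty]
    intro h0
    rw [h0, Finset.card_empty, Nat.mul_zero] at hlt
    exact absurd (Finset.card_pos.2 hQ'ne) (by omega)
  have hmem : insert i T ∈ I₀.powerset.filter P := by
    rw [Finset.mem_filter, Finset.mem_powerset]
    refine ⟨Finset.insert_subset hi hTI, Q'.filter (fun q => H i q c),
      (Finset.filter_subset _ _).trans hQ'Q, hne', ?_, ?_⟩
    · rw [Finset.card_insert_of_notMem hiT, pow_succ]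
      calc Q.card ≤ Q'.card * A ^ T.card := hcard
        _ ≤ (A * (Q'.filter (fun q => H i q c)).card) * A ^ T.card :=
          Nat.mul_le_mul_right _ hlt
        _ = _ := by ring
    · intro j hj
      rcases Finset.mem_insert.1 hj with rfl | hj
      · exact ⟨c, fun q hq => (Finset.mem_filter.1 hq).2⟩
      · obtain ⟨c', hc'⟩ := hc j hj
        exact ⟨c', fun q hq => hc' q (Finset.mem_filter.1 hq).1⟩
  have h1 := hmax _ hmem
  rw [Finset.card_insert_of_notMem hiT] at h1
  omega

end H43.PS
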