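import Pool.Agent.H43.PS.Tree
import Pool.Agent.H43.PS.Dich

/-!
# Module CORE: a family of locked sets of the same type with sparse hulls

Proof.
* `tree` with `M = 2 ^ (r * τ)` (note `2 ^ ((r+1) * τ) = 2 ^ (r * τ) * 2 ^ τ`) gives `𝒞`.
* For each cell `C ∈ 𝒞` the hypothesis `IH` gives `S C ⊆ C`, `T C`, `σ C` (choose).  These
  `S C` are nonempty (`2 ^ r` points) and pairwise disjoint.
* Pigeonhole on `C ↦ (T C, σ C) : Finset ι × (ι → Fin r → Bool)`, a type with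
  `2 ^ m * (2 ^ r) ^ m = 2 ^ ((r + 1) * m)` elements: there are `T₀`, `σ` and `Q ⊆ 𝒞` with
  `T C = T₀`, `σ C = σ` for `C ∈ Q` and `2 ^ τ ≤ Q.card * 2 ^ ((r + 1) * m)`; so `Q` nonempty.
* `dich` with `β = Finset α`, `H i C c = InHull (f i) (S C) c`, `I₀ = univ \ T₀`, `A = 4 * m`:
  `Q' ⊆ Q`, `T₁ ⊆ I₀` with `Q.card ≤ Q'.card * (4 * m) ^ T₁.card ≤ Q'.card * 2 ^ (L * T₁.card)`.
  So `2 ^ τ ≤ Q'.card * 2 ^ ((r + 1) * m + L * T₁.card)`, hence
  `2 ≤ Q'.card` by the threshold (`T₁.card ≤ m`).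
* For `i ∈ T₁` there is `c` in the hull of `S C` for all `C ∈ Q'`; hence `¬ Sep (f i) C C'` for
  `C, C' ∈ Q'` (if `Below (f i) C C'`, then `a ∈ S C` with `c ≤ f i a`... precisely: `b ∈ S C`
  with `c ≤ f i b` and `a ∈ S C'` with `f i a ≤ c` give `f i a ≤ f i b`, contradicting
  `Below (f i) C C'`).  So `tree` gives
  `Q'.card * 2 ^ (∑ T₁ κ) ≤ 2 ^ τ ≤ Q'.card * 2 ^ ((r + 1) * m + L * T₁.card)`, hence
  `∑ T₁ κ ≤ (r + 1) * m + L * T₁.card ≤ (r + 1) * m + (∑ T₁ κ) / 2` (as `2 * L ≤ κ i`), so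
  `∑ T₁ κ ≤ 2 * (r + 1) * m`.
* Put `𝒮 = Q'.image S` (`S` is injective on `𝒞`, the sets `S C` being nonempty and pairwise
  disjoint, so `𝒮.card = Q'.card`, and the filtered cardinalities agree as well) and
  `T = T₀ ∪ T₁`.  `Locked f r S T₀ σ` implies `Locked f r S T σ`.
-/

set_option autoImplicit false

namespace H43.PS

open Finset

/-- a locked set is nonempty -/
theorem core_locked_nonempty {ι α : Type} [DecidableEq α] {f : ι → α → ℕ} {r : ℕ}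
    {S : Finset α} {T : Finset ι} {σ : ι → Fin r → Bool} (h : Locked f r S T σ) :
    S.Nonempty := by
  rw [← Finset.card_pos, h.1]
  positivity

/-- enlarging the exceptional set keeps a set locked -/
theorem core_locked_mono {ι α : Type} [DecidableEq α] {f : ι → α → ℕ} {r : ℕ}
    {S : Finset α} {T T' : Finset ι} {σ : ι → Fin r → Bool} (h : Locked f r S T σ)
    (hT : T ⊆ T') : Locked f r S T' σ :=
  ⟨h.1, fun i i' hi hi' => h.2 i i' (fun hh => hi (hT hh)) (fun hh => hi' (hT hh))⟩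

/-- a common point of the hulls excludes separation -/
theorem core_not_below {α : Type} {g : α → ℕ} {S S' C C' : Finset α} {c : ℕ}
    (hS : S ⊆ C) (hS' : S' ⊆ C') (h : InHull g S c) (h' : InHull g S' c) :
    ¬ Below g C C' := by
  intro hb
  obtain ⟨_, b, hb1, hb2⟩ := h
  obtain ⟨⟨a, ha1, ha2⟩, _⟩ := h'
  have := hb b (hS hb1) a (hS' ha1)
  omega

open scoped Classical in
theorem core {ι α : Type} [Fintype ι] (f : ι → α → ℕ)
    (hf : ∀ i, Function.Injective (f i)) (m L : ℕ) (hm : Fintype.card ι = m) (hm1 : 1 ≤ m)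
    (hL : 4 * m ≤ 2 ^ L) (κ : ι → ℕ) (τ r β : ℕ) (hτ : ∑ i, κ i = τ)
    (hthr : (r + 1) * m + m * L + 1 ≤ τ) (hκ : ∀ i, 2 * L ≤ κ i)
    (IH : ∀ Y : Finset α, 2 ^ (r * τ) ≤ Y.card → ∃ S ⊆ Y, ∃ (T : Finset ι) (σ : ι → Fin r → Bool),
      Locked f r S T σ ∧ ∑ i ∈ T, κ i ≤ β)
    (Y : Finset α) (hY : 2 ^ ((r + 1) * τ) ≤ Y.card) :
    ∃ (𝒮 : Finset (Finset α)) (T : Finset ι) (σ : ι → Fin r → Bool), 2 ≤ 𝒮.card ∧
      (∀ S ∈ 𝒮, S ⊆ Y ∧ Locked f r S T σ) ∧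
      (∀ S ∈ 𝒮, ∀ S' ∈ 𝒮, S ≠ S' → Disjoint S S') ∧
      ∑ i ∈ T, κ i ≤ β + 2 * (r + 1) * m ∧
      ∀ i, i ∉ T → ∀ c, 4 * m * (𝒮.filter (fun S => InHull (f i) S c)).card < 𝒮.card := by
  -- the cells
  obtain ⟨𝒞, h𝒞card, h𝒞sub, h𝒞disj, h𝒞D⟩ := tree f hf (2 ^ (r * τ)) (Nat.one_le_two_pow) τ κ hτ Y
    (by rw [← pow_add]; convert hY using 2; ring)
  -- the locked sets
  have hex : ∀ C : Finset α, ∃ (S : Finset α) (T : Finset ι) (σ : ι → Fin r → Bool), C ∈ 𝒞 →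
      S ⊆ C ∧ Locked f r S T σ ∧ ∑ i ∈ T, κ i ≤ β := by
    intro C
    by_cases hC : C ∈ 𝒞
    · obtain ⟨S, hS, T, σ, h1, h2⟩ := IH C (h𝒞sub C hC).2
      exact ⟨S, T, σ, fun _ => ⟨hS, h1, h2⟩⟩
    · exact ⟨∅, ∅, fun _ _ => false, fun h => absurd h hC⟩
  choose S T σ hSTσ using hex
  -- pigeonhole
  have hpig : ∃ y ∈ (univ : Finset (Finset ι × (ι → Fin r → Bool))),
      2 ^ τ ≤ (𝒞.filter (fun C => (T C, σ C) = y)).card * 2 ^ ((r + 1) * m) := by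
    by_contra hcon
    push Not at hcon
    have hcardT : (univ : Finset (Finset ι × (ι → Fin r → Bool))).card = 2 ^ ((r + 1) * m) := by
      rw [Finset.card_univ, Fintype.card_prod, Fintype.card_finset, Fintype.card_fun,
        Fintype.card_fun, Fintype.card_bool, Fintype.card_fin, hm, ← pow_mul, ← pow_add]
      congr 1; ring
    have h1 : 𝒞.card = ∑ y ∈ (univ : Finset (Finset ι × (ι → Fin r → Bool))),
        (𝒞.filter (fun C => (T C, σ C) = y)).card :=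
      Finset.card_eq_sum_card_fiberwise (fun _ _ => Finset.mem_coe.2 (Finset.mem_univ _))
    have h2 : 𝒞.card * 2 ^ ((r + 1) * m) <
        ∑ y ∈ (univ : Finset (Finset ι × (ι → Fin r → Bool))), 2 ^ τ := by
      rw [h1, Finset.sum_mul]
      apply Finset.sum_lt_sum_of_nonempty
      · exact Finset.univ_nonempty
      · intro y hy
        exact hcon y hy
    rw [Finset.sum_const, hcardT, h𝒞card, smul_eq_mul] at h2
    rw [mul_comm] at h2
    exact lt_irrefl _ h2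
  obtain ⟨⟨T₀, σ₀⟩, _, hQ⟩ := hpig
  set Q := 𝒞.filter (fun C => (T C, σ C) = (T₀, σ₀)) with hQdef
  have hQmem : ∀ C ∈ Q, C ∈ 𝒞 ∧ T C = T₀ ∧ σ C = σ₀ := by
    intro C hC
    rw [hQdef, Finset.mem_filter, Prod.mk.injEq] at hC
    exact hC
  have hQne : Q.Nonempty := by
    rw [← Finset.card_pos]
    by_contra h0
    have h00 : Q.card = 0 := by omega
    rw [h00, zero_mul] at hQ
    have : 0 < 2 ^ τ := by positivity
    omega
  -- dichotomy
  obtain ⟨Q', hQ'sub, T₁, hT₁sub, hQ'ne, hQ'card, hQ'T, hQ'out⟩ :=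
    dich Q hQne (fun i C c => InHull (f i) (S C) c) (univ \ T₀) (4 * m)
  have hT₁card : T₁.card ≤ m := by
    rw [← hm]; exact Finset.card_le_univ _
  have hQ2 : Q.card ≤ Q'.card * 2 ^ (L * T₁.card) := by
    calc Q.card ≤ Q'.card * (4 * m) ^ T₁.card := hQ'card
      _ ≤ Q'.card * (2 ^ L) ^ T₁.card := by gcongr
      _ = Q'.card * 2 ^ (L * T₁.card) := by rw [← pow_mul]
  have hQ3 : 2 ^ τ ≤ Q'.card * 2 ^ ((r + 1) * m + L * T₁.card) := by
    calc 2 ^ τ ≤ Q.card * 2 ^ ((r + 1) * m) := hQ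
      _ ≤ (Q'.card * 2 ^ (L * T₁.card)) * 2 ^ ((r + 1) * m) := by gcongr
      _ = Q'.card * 2 ^ ((r + 1) * m + L * T₁.card) := by rw [pow_add]; ring
  have hLT : L * T₁.card ≤ m * L := by
    rw [mul_comm m L]
    exact Nat.mul_le_mul_left _ hT₁card
  have hQ'mem : ∀ C ∈ Q', C ∈ 𝒞 ∧ T C = T₀ ∧ σ C = σ₀ := fun C hC => hQmem C (hQ'sub hC)
  have hQ'2 : 2 ≤ Q'.card := by
    by_contra hcon
    push Not at hcon
    have h1 : Q'.card ≤ 1 := by omega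
    have h2 : 2 ^ τ ≤ 2 ^ ((r + 1) * m + L * T₁.card) := by
      calc 2 ^ τ ≤ Q'.card * 2 ^ ((r + 1) * m + L * T₁.card) := hQ3
        _ ≤ 1 * 2 ^ ((r + 1) * m + L * T₁.card) := by gcongr
        _ = _ := one_mul _
    have h3 := (Nat.pow_le_pow_iff_right (by norm_num : 1 < 2)).1 h2
    omega
  have hQ'𝒞 : Q' ⊆ 𝒞 := fun C hC => (hQ'mem C hC).1
  -- sum over T₁
  have hT₁sum : ∑ i ∈ T₁, κ i ≤ 2 * (r + 1) * m := by
    have h1 := h𝒞D Q' hQ'𝒞 T₁ (by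
      intro i hi C hC C' hC' _ hsep
      obtain ⟨c, hc⟩ := hQ'T i hi
      have hSC := (hSTσ C (hQ'𝒞 hC)).1
      have hSC' := (hSTσ C' (hQ'𝒞 hC')).1
      rcases hsep with h | h
      · exact core_not_below hSC hSC' (hc C hC) (hc C' hC') h
      · exact core_not_below hSC' hSC (hc C' hC') (hc C hC) h)
    have h2 : Q'.card * 2 ^ (∑ i ∈ T₁, κ i) ≤ Q'.card * 2 ^ ((r + 1) * m + L * T₁.card) :=
      h1.trans hQ3
    have h3 := Nat.le_of_mul_le_mul_left h2 (by omega)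
    have h4 := (Nat.pow_le_pow_iff_right (by norm_num : 1 < 2)).1 h3
    have h5 : T₁.card * (2 * L) ≤ ∑ i ∈ T₁, κ i := by
      rw [← smul_eq_mul]
      exact Finset.card_nsmul_le_sum T₁ κ (2 * L) (fun i _ => hκ i)
    have h6 : T₁.card * (2 * L) = 2 * (L * T₁.card) := by ring
    have h7 : 2 * (r + 1) * m = 2 * ((r + 1) * m) := by ring
    omega
  -- injectivity of S on Q'
  have hSne : ∀ C ∈ 𝒞, (S C).Nonempty := fun C hC => core_locked_nonempty (hSTσ C hC).2.1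
  have hSdisj : ∀ C ∈ 𝒞, ∀ C' ∈ 𝒞, C ≠ C' → Disjoint (S C) (S C') := by
    intro C hC C' hC' hne
    exact Finset.disjoint_of_subset_left (hSTσ C hC).1
      (Finset.disjoint_of_subset_right (hSTσ C' hC').1 (h𝒞disj C hC C' hC' hne))
  have hSinj : ∀ C ∈ 𝒞, ∀ C' ∈ 𝒞, S C = S C' → C = C' := by
    intro C hC C' hC' heq
    by_contra hne
    have h1 := hSdisj C hC C' hC' hne
    rw [heq, Finset.disjoint_self_iff_empty] at h1
    exact (hSne C' hC').ne_empty h1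
  have hSinj' : Set.InjOn S (Q' : Set (Finset α)) := by
    intro C hC C' hC' heq
    exact hSinj C (hQ'𝒞 hC) C' (hQ'𝒞 hC') heq
  refine ⟨Q'.image S, T₀ ∪ T₁, σ₀, ?_, ?_, ?_, ?_, ?_⟩
  · rw [Finset.card_image_of_injOn hSinj']; exact hQ'2
  · intro S' hS'
    rw [Finset.mem_image] at hS'
    obtain ⟨C, hC, rfl⟩ := hS'
    obtain ⟨hC1, hC2, hC3⟩ := hQ'mem C hC
    obtain ⟨h1, h2, _⟩ := hSTσ C hC1
    rw [hC2, hC3] at h2
    exact ⟨h1.trans (h𝒞sub C hC1).1, core_locked_mono h2 Finset.subset_union_left⟩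
  · intro S₁ hS₁ S₂ hS₂ hne
    rw [Finset.mem_image] at hS₁ hS₂
    obtain ⟨C, hC, rfl⟩ := hS₁
    obtain ⟨C', hC', rfl⟩ := hS₂
    exact hSdisj C (hQ'𝒞 hC) C' (hQ'𝒞 hC') (fun h => hne (by rw [h]))
  · have hT₀sum : ∑ i ∈ T₀, κ i ≤ β := by
      obtain ⟨C, hC⟩ := hQ'ne
      obtain ⟨hC1, hC2, _⟩ := hQ'mem C hC
      have := (hSTσ C hC1).2.2
      rwa [hC2] at this
    calc ∑ i ∈ T₀ ∪ T₁, κ i ≤ ∑ i ∈ T₀, κ i + ∑ i ∈ T₁, κ i := by
          rw [← Finset.sum_union_inter]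
          exact Nat.le_add_right _ _
      _ ≤ β + 2 * (r + 1) * m := add_le_add hT₀sum hT₁sum
  · intro i hi c
    rw [Finset.mem_union, not_or] at hi
    have h1 := hQ'out i (by simp [hi.1]) hi.2 c
    rw [Finset.filter_image, Finset.card_image_of_injOn hSinj', Finset.card_image_of_injOn
      (hSinj'.mono (by
        intro C hC
        exact Finset.mem_coe.2 (Finset.mem_of_mem_filter C (Finset.mem_coe.1 hC))))]
    exact h1

end H43.PS
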