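import Mathlib

/-!
# Permutation families shattering `k`-sets: lower bounds close to `log n` (MP_16ff77_co)

Definitions.  A family of `m` linear orders on `α` is given by injective maps `f i : α → ℕ`,
`i : ι`, with `Fintype.card ι = m`.  See `proofs` 221 for the complete paper proof.
-/

set_option autoImplicit false

namespace H43.PS

open Finset

/-- The ordering of `A` induced by `g`, as the set of pairs `(a, b)` of points of `A` with
`g a < g b`. -/
def rel {α : Type} [DecidableEq α] (g : α → ℕ) (A : Finset α) : Finset (α × α) :=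
  (A ×ˢ A).filter (fun p => g p.1 < g p.2)

/-- `A` lies entirely below `B`. -/
def Below {α : Type} (g : α → ℕ) (A B : Finset α) : Prop := ∀ a ∈ A, ∀ b ∈ B, g a < g b

/-- `A` and `B` are separated: one lies entirely below the other. -/
def Sep {α : Type} (g : α → ℕ) (A B : Finset α) : Prop := Below g A B ∨ Below g B A

/-- `c` lies in the hull of `A`. -/
def InHull {α : Type} (g : α → ℕ) (A : Finset α) (c : ℕ) : Prop :=
  (∃ a ∈ A, g a ≤ c) ∧ (∃ b ∈ A, c ≤ g b)

/-- `S` is locked (of depth `r`) outside `T`, with colours `σ`: it has `2 ^ r` points, and two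
orders outside `T` with the same colour induce the same ordering on `S`. -/
def Locked {ι α : Type} [DecidableEq α] (f : ι → α → ℕ) (r : ℕ) (S : Finset α) (T : Finset ι)
    (σ : ι → Fin r → Bool) : Prop :=
  S.card = 2 ^ r ∧ ∀ i i', i ∉ T → i' ∉ T → σ i = σ i' → rel (f i) S = rel (f i') S

/-- The counting numbers: `Z U W s b` bounds the number of orderings induced on a union of `s`
gadgets by the orders which break exactly `b` of them; `U` orderings for a gadget which is not
broken, `W` for a broken one.  (`Z U W s b = s.choose b * U ^ (s - b) * W ^ b`.) -/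
def Z (U W : ℕ) : ℕ → ℕ → ℕ
  | 0, 0 => 1
  | 0, _ + 1 => 0
  | s + 1, 0 => U * Z U W s 0
  | s + 1, b + 1 => U * Z U W s (b + 1) + W * Z U W s b

theorem mem_rel {α : Type} [DecidableEq α] (g : α → ℕ) (A : Finset α) (a b : α) :
    (a, b) ∈ rel g A ↔ a ∈ A ∧ b ∈ A ∧ g a < g b := by
  unfold rel
  simp only [mem_filter, mem_product]
  tauto

end H43.PS
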