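import Pool.Agent.H43.PS.Defs

/-!
# Module ORDS: at most `|A|!` orderings of `A`

Proof.  For `g` injective let `e g : A ≃ Fin A.card` be the bijection
`A ≃ A.image g ≃o Fin A.card` (the inverse of `Finset.orderIsoOfFin`), so `g a < g b ↔ e g a < e g b`
for `a b ∈ A`.  Hence `rel g A` is determined by `e g`, i.e. the image of `P` under
`fun i => rel (f i) A` has at most `Fintype.card (A ≃ Fin A.card) = A.card !` elements
(`Fintype.card_equiv`).

(Alternative: induction on `A`: remove a point `a`; `rel g A` is determined by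
`rel g (A.erase a)` and the number of `b ∈ A.erase a` with `g b < g a`, which is `< A.card`.)
-/

set_option autoImplicit false

namespace H43.PS

open Finset

theorem ords_equiv {α : Type} [DecidableEq α] (g : α → ℕ)
    (hg : Function.Injective g) (A : Finset α) :
    ∃ e : A ≃ Fin A.card, ∀ a b : A, g a < g b ↔ e a < e b := by
  have hcard : (A.image g).card = A.card := Finset.card_image_of_injective A hg
  let o := (A.image g).orderIsoOfFin hcard
  let t : A ≃ (A.image g) := Equiv.ofBijective
    (fun a => ⟨g a, Finset.mem_image_of_mem g a.2⟩) (by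
      constructor
      · intro a b hab
        have h1 : g a = g b := congrArg Subtype.val hab
        exact Subtype.ext (hg h1)
      · rintro ⟨c, hc⟩
        obtain ⟨a, ha, rfl⟩ := Finset.mem_image.mp hc
        exact ⟨⟨a, ha⟩, rfl⟩)
  refine ⟨t.trans o.symm.toEquiv, ?_⟩
  intro a b
  have h1 : (t.trans o.symm.toEquiv) a < (t.trans o.symm.toEquiv) b ↔ t a < t b := by
    change o.symm (t a) < o.symm (t b) ↔ t a < t b
    exact o.symm.lt_iff_lt
  rw [h1]
  exact Iff.rfl

theorem ords {ι α : Type} [DecidableEq α] (f : ι → α → ℕ)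
    (hf : ∀ i, Function.Injective (f i)) (P : Finset ι) (A : Finset α) :
    (P.image (fun i => rel (f i) A)).card ≤ A.card.factorial := by
  classical
  let Φ : (A ≃ Fin A.card) → Finset (α × α) := fun e =>
    ((Finset.univ : Finset (A × A)).filter (fun p => e p.1 < e p.2)).image
      (fun p => (p.1.1, p.2.1))
  have hsub : P.image (fun i => rel (f i) A) ⊆ (Finset.univ : Finset (A ≃ Fin A.card)).image Φ := by
    intro R hR
    obtain ⟨i, _, rfl⟩ := Finset.mem_image.mp hR
    obtain ⟨e, he⟩ := ords_equiv (f i) (hf i) A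
    refine Finset.mem_image.mpr ⟨e, Finset.mem_univ _, ?_⟩
    ext ⟨a, b⟩
    rw [mem_rel]
    simp only [Φ, Finset.mem_image, Finset.mem_filter, Finset.mem_univ, true_and, Prod.mk.injEq]
    constructor
    · rintro ⟨⟨a', b'⟩, h1, h2, h3⟩
      have h4 := (he a' b').mpr h1
      subst h2; subst h3
      exact ⟨a'.2, b'.2, h4⟩
    · rintro ⟨ha, hb, hlt⟩
      exact ⟨(⟨a, ha⟩, ⟨b, hb⟩), (he ⟨a, ha⟩ ⟨b, hb⟩).mp hlt, rfl, rfl⟩
  calc (P.image (fun i => rel (f i) A)).card
      ≤ ((Finset.univ : Finset (A ≃ Fin A.card)).image Φ).card := Finset.card_le_card hsub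
    _ ≤ (Finset.univ : Finset (A ≃ Fin A.card)).card := Finset.card_image_le
    _ = A.card.factorial := by
        rw [Finset.card_univ, Fintype.card_equiv (Fintype.equivFinOfCardEq (Fintype.card_coe A))]
        rw [Fintype.card_coe]

end H43.PS
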