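import Pool.Agent.H43.PS.Defs

/-!
# Module SIGN: the most popular side class

For `y ∈ Y` let `v y : ι → S → Bool` (or a function on `ι × S`) say whether `f i y < f i p`.
There are `2 ^ (S.card * m)` such functions, so by pigeonhole
(`Finset.exists_le_card_fiber_of_mul_le_card_of_maps_to` or
`Finset.exists_lt_card_fiber_of_mul_lt_card_of_maps_to`, or by contradiction from
`Finset.card_eq_sum_card_fiberwise`) one fibre `Y'` has
`Y.card ≤ Y'.card * 2 ^ (S.card * m)`.  Since `S` and `Y` are disjoint and `f i` is injective,
`¬ f i y < f i p` means `f i p < f i y` for `p ∈ S`, `y ∈ Y`.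
-/

set_option autoImplicit false

namespace H43.PS

open Finset

theorem sign {ι α : Type} [Fintype ι] [DecidableEq ι] [DecidableEq α] (f : ι → α → ℕ)
    (hf : ∀ i, Function.Injective (f i)) (m : ℕ) (hm : Fintype.card ι = m) (S Y : Finset α)
    (hd : Disjoint S Y) :
    ∃ Y' ⊆ Y, Y.card ≤ Y'.card * 2 ^ (S.card * m) ∧ ∀ i, ∀ p ∈ S, Sep (f i) {p} Y' := by
  classical
  let v : α → (ι × S → Bool) := fun y q => decide (f q.1 y < f q.1 q.2)
  obtain ⟨c, _, hc⟩ := Finset.exists_max_image (Finset.univ : Finset (ι × S → Bool))
    (fun c => (Y.filter (fun y => v y = c)).card) Finset.univ_nonempty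
  refine ⟨Y.filter (fun y => v y = c), Finset.filter_subset _ _, ?_, ?_⟩
  · have h1 := Finset.card_le_mul_card_image_of_maps_to
      (f := v) (s := Y) (t := (Finset.univ : Finset (ι × S → Bool)))
      (fun a _ => Finset.mem_univ _) ((Y.filter (fun y => v y = c)).card)
      (fun b hb => hc b hb)
    have h2 : (Finset.univ : Finset (ι × S → Bool)).card = 2 ^ (S.card * m) := by
      rw [Finset.card_univ, Fintype.card_fun, Fintype.card_bool, Fintype.card_prod,
        Fintype.card_coe, hm, Nat.mul_comm]
    rw [h2] at h1
    exact h1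
  · intro i p hp
    cases hcp : c (i, ⟨p, hp⟩) with
    | true =>
      right
      intro a ha b hb
      rw [Finset.mem_singleton] at hb
      subst hb
      have h3 := (Finset.mem_filter.mp ha).2
      have h4 : v a (i, ⟨b, hp⟩) = true := by rw [h3, hcp]
      simpa [v] using h4
    | false =>
      left
      intro b hb a ha
      rw [Finset.mem_singleton] at hb
      subst hb
      have h3 := (Finset.mem_filter.mp ha).2
      have haY := (Finset.mem_filter.mp ha).1
      have h4 : v a (i, ⟨b, hp⟩) = false := by rw [h3, hcp]
      have h5 : ¬ (f i a < f i b) := by simpa [v] using h4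
      have h6 : f i b ≠ f i a := by
        intro h7
        have h8 := hf i h7
        subst h8
        exact (Finset.disjoint_left.mp hd) hp haY
      omega

end H43.PS
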