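import Pool.Agent.H43.PS.Step
import Pool.Agent.H43.PS.Sign
import Pool.Agent.H43.PS.Ords

/-!
# Module EXTRA: `e` single points

Induction on `e ≥ 1` (`Nat.le_induction`, generalising `Y`).  `e = 1`: `Y` is nonempty, take
`K = {y}`; `rel g {y} = ∅`, one ordering `= 2 ^ 0`.
`e + 1`: `2 ^ ((e + 1) * (m + 1)) ≤ Y.card`; take `x ∈ Y`, `Y₂ = Y.erase x`,
`Y.card ≤ 2 * Y₂.card` (as `2 ≤ Y.card`), and `sign` with `S = {x}`: `Y' ⊆ Y₂`,
`Y₂.card ≤ Y'.card * 2 ^ (1 * m)`, so `2 ^ (e * (m + 1)) ≤ Y'.card`.  The induction hypothesis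
gives `K' ⊆ Y'`; `K = {x} ∪ K'`.  By `step` with some `y ∈ K'` (`e ≥ 1`) the number of orderings
of `K` is at most that of `{x, y}`, which is at most `2` (the ordering of a pair `x ≠ y` is
`{(x, y)}` or `{(y, x)}`; or use that `rel g {x,y}` is determined by the bit `g x < g y`), times
`2 ^ (e - 1)`.
-/

set_option autoImplicit false

namespace H43.PS

open Finset
open scoped Classical in
theorem extra {ι α : Type} [Fintype ι] (f : ι → α → ℕ)
    (hf : ∀ i, Function.Injective (f i)) (m : ℕ) (hm : Fintype.card ι = m) :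
    ∀ e : ℕ, 1 ≤ e → ∀ Y : Finset α, 2 ^ (e * (m + 1)) ≤ Y.card →
      ∃ K ⊆ Y, K.card = e ∧
        ((univ : Finset ι).image (fun i => rel (f i) K)).card ≤ 2 ^ (e - 1) := by
  intro e he
  induction e, he using Nat.le_induction with
  | base =>
    intro Y hY
    have hpos : 0 < Y.card := lt_of_lt_of_le (by positivity) hY
    obtain ⟨y, hy⟩ := Finset.card_pos.mp hpos
    refine ⟨{y}, Finset.singleton_subset_iff.mpr hy, Finset.card_singleton y, ?_⟩
    have h1 : ((univ : Finset ι).image (fun i => rel (f i) {y})) ⊆ {∅} := by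
      intro R hR
      obtain ⟨i, _, rfl⟩ := Finset.mem_image.mp hR
      rw [Finset.mem_singleton, Finset.eq_empty_iff_forall_notMem]
      rintro ⟨a, b⟩ hab
      rw [mem_rel, Finset.mem_singleton, Finset.mem_singleton] at hab
      obtain ⟨rfl, rfl, h3⟩ := hab
      exact lt_irrefl _ h3
    have h2 := Finset.card_le_card h1
    rw [Finset.card_singleton] at h2
    simpa using h2
  | succ e he ih =>
    intro Y hY
    have hpos : 0 < Y.card := lt_of_lt_of_le (by positivity) hY
    obtain ⟨x, hx⟩ := Finset.card_pos.mp hpos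
    have hd : Disjoint ({x} : Finset α) (Y.erase x) := by
      rw [Finset.disjoint_singleton_left]
      exact Finset.notMem_erase x Y
    obtain ⟨Y', hY'sub, hY'card, hsep⟩ := sign f hf m hm {x} (Y.erase x) hd
    rw [Finset.card_singleton, Nat.one_mul] at hY'card
    have hYc : (Y.erase x).card + 1 = Y.card := Finset.card_erase_add_one hx
    have hbig : 2 ^ (e * (m + 1)) ≤ Y'.card := by
      have h1 : 2 ^ ((e + 1) * (m + 1)) = 2 ^ (e * (m + 1)) * (2 * 2 ^ m) := by
        rw [← pow_succ', ← pow_add]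
        congr 1
        ring
      rw [h1, ← hYc] at hY
      have h2 : 1 ≤ 2 ^ (e * (m + 1)) * 2 ^ m := Nat.one_le_iff_ne_zero.mpr (by positivity)
      have h3 : 2 ^ (e * (m + 1)) * 2 ^ m ≤ Y'.card * 2 ^ m := by
        have h4 : 2 ^ (e * (m + 1)) * (2 * 2 ^ m) =
            2 ^ (e * (m + 1)) * 2 ^ m + 2 ^ (e * (m + 1)) * 2 ^ m := by ring
        omega
      exact Nat.le_of_mul_le_mul_right h3 (by positivity)
    obtain ⟨K', hK'sub, hK'card, hK'im⟩ := ih Y' hbig
    have hK'pos : 0 < K'.card := by omega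
    obtain ⟨y, hy⟩ := Finset.card_pos.mp hK'pos
    have hxK' : x ∉ K' := fun h => Finset.notMem_erase x Y (hY'sub (hK'sub h))
    have hyx : y ≠ x := fun h => hxK' (h ▸ hy)
    refine ⟨{x} ∪ K', ?_, ?_, ?_⟩
    · intro a ha
      rcases Finset.mem_union.mp ha with h | h
      · rw [Finset.mem_singleton] at h
        rw [h]
        exact hx
      · exact Finset.mem_of_mem_erase (hY'sub (hK'sub h))
    · rw [Finset.card_union_of_disjoint (Finset.disjoint_singleton_left.mpr hxK'),
        Finset.card_singleton, hK'card]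
      omega
    · have h1 := step f (univ : Finset ι) {x} K' y hy (by
        intro i _ p hp
        rcases hsep i p hp with h | h
        · left
          exact fun a ha b hb => h a ha b (hK'sub hb)
        · right
          exact fun a ha b hb => h a (hK'sub ha) b hb)
      have h2 := ords f hf (univ : Finset ι) (insert y {x})
      rw [Finset.card_pair hyx] at h2
      have h3 : Nat.factorial 2 = 2 := rfl
      rw [h3] at h2
      refine h1.trans ((Nat.mul_le_mul h2 hK'im).trans ?_)
      obtain ⟨k, rfl⟩ : ∃ k, e = k + 1 := ⟨e - 1, by omega⟩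
      simp only [Nat.add_sub_cancel]
      rw [pow_succ']

end H43.PS
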