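import Pool.Agent.H43.PS.NumA

/-!
# Module NUMB: the choice of `r`, `s`, `e` for given `k`, and the bound for the number of orderings

Let `k ≥ 2`; `r = Nat.log 4 k` (so `4 ^ r ≤ k < 4 ^ (r + 1)`), `s = (k - 1) / 2 ^ r`,
`e = k - s * 2 ^ r`.  Then `1 ≤ e ≤ 2 ^ r`, and `s ≥ 1` (`k - 1 ≥ 4 ^ r - 1 ≥ 2 ^ r` if `r ≥ 1`;
if `r = 0` then `s = k - 1 ≥ 1`), `s * 2 ^ r < 4 ^ (r + 1)` so `s ≤ 4 * 2 ^ r`.  `2 ^ r ≤ √k`
and `r ≤ log k / log 4 ≤ log k`.

`Z_le` with `A = W` gives `∑ b ∈ range (J + 1), Z U W s b ≤ W ^ J * (U + 1) ^ s`, where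
`U = 2 ^ (r + 1)`, `U + 1 ≤ 2 ^ (r + 2)`, `W = (2 ^ r + 1)! ≤ (2 ^ (r + 1)) ^ (2 ^ r + 1)`
(`Nat.factorial_le_pow`, `2 ^ r + 1 ≤ 2 ^ (r + 1)`).  So
`2 ^ (e - 1) * ∑ ≤ 2 ^ (2 ^ r + J * (r + 1) * (2 ^ r + 1) + (r + 2) * (4 * 2 ^ r))` and even `<`
with `e - 1 < 2 ^ r`.  The exponent is at most
`√k + J * (log k + 1) * (2 * √k) + (log k + 2) * 4 * √k ≤ C * √k * log k` with
`log k ≥ log 2 ≥ 0.69`, e.g. `C = 20 * (J + 1)` (check: divide by `√k * log k`, `1 / log k ≤ 1.5`: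
`1.5 + 2 J (1 + 1.5) + 4 (1 + 3) = 17.5 + 5 J ≤ 20 (J + 1)`).
-/

set_option autoImplicit false

namespace H43.PS

open Finset

/-- the elementary bound in the natural numbers -/
theorem numB_nat (J r s e : ℕ) (he : 1 ≤ e) (he2 : e ≤ 2 ^ r) (hs : s ≤ 4 * 2 ^ r) :
    2 ^ (e - 1) * ∑ b ∈ range (J + 1), Z (2 ^ (r + 1)) ((2 ^ r + 1).factorial) s b <
      2 ^ (2 ^ r + J * ((r + 1) * (2 ^ r + 1)) + (r + 2) * (4 * 2 ^ r)) := by
  set W := (2 ^ r + 1).factorial with hW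
  set U := 2 ^ (r + 1) with hU
  have hWpos : 0 < W := Nat.factorial_pos _
  have hZ := Z_le U W W J s hWpos
  have h1 : ∑ b ∈ range (J + 1), Z U W s b ≤ W ^ J * (U + 1) ^ s := by
    have h2 : W ^ s * ∑ b ∈ range (J + 1), Z U W s b ≤ W ^ s * (W ^ J * (U + 1) ^ s) := by
      calc W ^ s * ∑ b ∈ range (J + 1), Z U W s b ≤ W ^ J * (W * U + W) ^ s := hZ
        _ = W ^ s * (W ^ J * (U + 1) ^ s) := by
          have : W * U + W = W * (U + 1) := by ring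
          rw [this, mul_pow]; ring
    exact Nat.le_of_mul_le_mul_left h2 (by positivity)
  have hP : 1 ≤ 2 ^ r := Nat.one_le_two_pow
  have hWle : W ≤ 2 ^ ((r + 1) * (2 ^ r + 1)) := by
    calc W ≤ (2 ^ r + 1) ^ (2 ^ r + 1) := Nat.factorial_le_pow _
      _ ≤ (2 ^ (r + 1)) ^ (2 ^ r + 1) := by
        apply Nat.pow_le_pow_left
        rw [pow_succ]; omega
      _ = _ := by rw [← pow_mul]
  have hUle : U + 1 ≤ 2 ^ (r + 2) := by
    rw [hU, pow_succ, pow_succ, pow_succ]; omega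
  have h3 : ∑ b ∈ range (J + 1), Z U W s b ≤
      2 ^ (J * ((r + 1) * (2 ^ r + 1)) + (r + 2) * (4 * 2 ^ r)) := by
    calc ∑ b ∈ range (J + 1), Z U W s b ≤ W ^ J * (U + 1) ^ s := h1
      _ ≤ (2 ^ ((r + 1) * (2 ^ r + 1))) ^ J * (2 ^ (r + 2)) ^ s := by gcongr
      _ ≤ (2 ^ ((r + 1) * (2 ^ r + 1))) ^ J * (2 ^ (r + 2)) ^ (4 * 2 ^ r) := by
        apply Nat.mul_le_mul_left
        exact Nat.pow_le_pow_right (by positivity) hs
      _ = _ := by
        rw [← pow_mul, ← pow_mul, ← pow_add]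
        congr 1; ring
  calc 2 ^ (e - 1) * ∑ b ∈ range (J + 1), Z U W s b
      ≤ 2 ^ (e - 1) * 2 ^ (J * ((r + 1) * (2 ^ r + 1)) + (r + 2) * (4 * 2 ^ r)) :=
        Nat.mul_le_mul_left _ h3
    _ < 2 ^ (2 ^ r) * 2 ^ (J * ((r + 1) * (2 ^ r + 1)) + (r + 2) * (4 * 2 ^ r)) := by
        apply Nat.mul_lt_mul_of_pos_right _ (by positivity)
        apply Nat.pow_lt_pow_right (by norm_num)
        omega
    _ = _ := by rw [← pow_add]; congr 1; ring

/-- the real estimate for the exponent -/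
theorem numB_real (J k r : ℕ) (hk : 2 ≤ k) (hr : 4 ^ r ≤ k) :
    ((2 ^ r + J * ((r + 1) * (2 ^ r + 1)) + (r + 2) * (4 * 2 ^ r) : ℕ) : ℝ) ≤
      20 * ((J : ℝ) + 1) * √(k : ℝ) * Real.log k := by
  have hkR : (2 : ℝ) ≤ (k : ℝ) := by exact_mod_cast hk
  have hk0 : (0 : ℝ) < (k : ℝ) := by linarith
  have hrR : (4 : ℝ) ^ r ≤ (k : ℝ) := by exact_mod_cast hr
  set P : ℝ := (2 : ℝ) ^ r with hP
  set q : ℝ := √(k : ℝ) with hq
  set l : ℝ := Real.log k with hl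
  have hP1 : 1 ≤ P := one_le_pow₀ (by norm_num)
  have hPq : P ≤ q := by
    rw [hq]
    apply Real.le_sqrt_of_sq_le
    have : P ^ 2 = 4 ^ r := by
      rw [hP, ← pow_mul, mul_comm, pow_mul]; norm_num
    rw [this]; exact hrR
  have hq1 : 1 ≤ q := hP1.trans hPq
  have hlog2 : 0.69 < Real.log 2 := by
    have := Real.log_two_gt_d9; linarith
  have hl2 : 0.69 ≤ l := by
    have : Real.log 2 ≤ l := Real.log_le_log (by norm_num) hkR
    linarith
  have hl0 : 0 ≤ l := by linarith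
  have hrl : (r : ℝ) * 1.38 ≤ l := by
    have h1 : Real.log ((4 : ℝ) ^ r) ≤ l := Real.log_le_log (by positivity) hrR
    rw [Real.log_pow] at h1
    have h2 : Real.log (4 : ℝ) = 2 * Real.log 2 := by
      rw [show (4 : ℝ) = 2 ^ 2 by norm_num, Real.log_pow]; norm_num
    rw [h2] at h1
    have h3 : (0 : ℝ) ≤ r := by positivity
    nlinarith
  have hr0 : (0 : ℝ) ≤ r := by positivity
  have hJ0 : (0 : ℝ) ≤ J := by positivity
  have e1 : P ≤ q * (1.5 * l) := by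
    nlinarith [mul_nonneg (by linarith : (0:ℝ) ≤ q) (by linarith : (0:ℝ) ≤ 1.5 * l - 1)]
  have e2 : ((r : ℝ) + 1) * (P + 1) ≤ (2.3 * l) * (2 * q) := by
    apply mul_le_mul
    · linarith
    · linarith
    · linarith
    · linarith
  have e3 : ((r : ℝ) + 2) * (4 * P) ≤ (3.8 * l) * (4 * q) := by
    apply mul_le_mul
    · linarith
    · linarith
    · linarith
    · linarith
  have e4 : (J : ℝ) * (((r : ℝ) + 1) * (P + 1)) ≤ J * ((2.3 * l) * (2 * q)) :=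
    mul_le_mul_of_nonneg_left e2 hJ0
  have hql : 0 ≤ q * l := by positivity
  have hJql : 0 ≤ J * (q * l) := by positivity
  push_cast
  calc P + (J : ℝ) * (((r : ℝ) + 1) * (P + 1)) + ((r : ℝ) + 2) * (4 * P)
      ≤ q * (1.5 * l) + J * ((2.3 * l) * (2 * q)) + (3.8 * l) * (4 * q) := by linarith
    _ = 16.7 * (q * l) + 4.6 * (J * (q * l)) := by ring
    _ ≤ 20 * (q * l) + 20 * (J * (q * l)) := by linarith
    _ = 20 * ((J : ℝ) + 1) * q * l := by ring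

/-- the change from natural exponents to real exponents -/
theorem numB_cast (a N : ℕ) (x : ℝ) (h : a < 2 ^ N) (hx : (N : ℝ) ≤ x) :
    (a : ℝ) < (2 : ℝ) ^ x := by
  have h1 : (a : ℝ) < (2 : ℝ) ^ N := by exact_mod_cast h
  rw [← Real.rpow_natCast] at h1
  exact h1.trans_le (Real.rpow_le_rpow_of_exponent_le (by norm_num) hx)

theorem numB (J k : ℕ) (hk : 2 ≤ k) : ∃ r s e : ℕ, 1 ≤ s ∧ 1 ≤ e ∧ k = s * 2 ^ r + e ∧
    ((2 ^ (e - 1) * ∑ b ∈ range (J + 1), Z (2 ^ (r + 1)) ((2 ^ r + 1).factorial) s b : ℕ) : ℝ) <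
      (2 : ℝ) ^ (20 * ((J : ℝ) + 1) * √(k : ℝ) * Real.log k) := by
  set r := Nat.log 4 k with hr
  have h1 : 4 ^ r ≤ k := Nat.pow_log_le_self 4 (by omega)
  have h2 : k < 4 ^ (r + 1) := Nat.lt_pow_succ_log_self (by norm_num) k
  have hPP : 4 ^ r = 2 ^ r * 2 ^ r := by
    rw [← mul_pow]; norm_num
  set P := 2 ^ r with hP
  have hPpos : 0 < P := by positivity
  have hkP : P * P ≤ k := by rw [← hPP]; exact h1
  have hkP2 : k < 4 * (P * P) := by rw [← hPP]; rw [pow_succ] at h2; omega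
  set s := (k - 1) / P with hs
  have hdm : P * s + (k - 1) % P = k - 1 := Nat.div_add_mod (k - 1) P
  have hmod : (k - 1) % P < P := Nat.mod_lt _ hPpos
  have hs1 : 1 ≤ s := by
    rw [hs, Nat.one_le_div_iff hPpos]
    rcases Nat.lt_or_ge P 2 with hlt | hge
    · omega
    · have : P * 2 ≤ P * P := Nat.mul_le_mul_left _ hge
      omega
  have hs4 : s ≤ 4 * P := by
    have : s < 4 * P := by
      rw [hs, Nat.div_lt_iff_lt_mul hPpos]
      have : 4 * P * P = 4 * (P * P) := by ring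
      omega
    omega
  refine ⟨r, s, (k - 1) % P + 1, hs1, by omega, ?_, ?_⟩
  · have h5 : s * P = P * s := mul_comm _ _
    rw [← hP, h5]
    omega
  · have h3 := numB_nat J r s ((k - 1) % P + 1) (by omega) (by omega) hs4
    have h4 := numB_real J k r hk h1
    exact numB_cast _ _ _ h3 h4

end H43.PS
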