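import Pool.Agent.H43.PS.Total
import Pool.Agent.H43.PS.Analytic
import Pool.Agent.H43.PS.NumB

/-!
# Final assembly
-/

set_option autoImplicit false

namespace H43.PS

open Finset

/-- The general theorem: with `k = s * 2 ^ r + e`, if `t` is larger than
`2 ^ (e - 1) * ∑ b ≤ J, Z (2 ^ (r + 1)) ((2 ^ r + 1)!) s b` then every family which `t`-shatters
all `k`-sets has at least `c (log n) ^ ((J + 1) / (J + 2))` members. -/
theorem general (r s e J : ℕ) (hs : 1 ≤ s) (he : 1 ≤ e) : ∃ c : ℝ, 0 < c ∧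
    ∀ t n : ℕ, 2 ^ (e - 1) * ∑ b ∈ range (J + 1), Z (2 ^ (r + 1)) ((2 ^ r + 1).factorial) s b < t →
      s * 2 ^ r + e ≤ n → ∀ P : Finset (Equiv.Perm (Fin n)),
      (∀ X : Finset (Fin n), X.card = s * 2 ^ r + e → t ≤ numOrd n P X) →
      c * (Real.log n) ^ (((J : ℝ) + 1) / ((J : ℝ) + 2)) ≤ P.card := by
  obtain ⟨D, hD⟩ : ∃ D : ℕ, D = 4 * (r + 1) * (r + 1) * (r + 1) * s + s * (2 ^ r + 1) + 2 * e :=
    ⟨_, rfl⟩
  obtain ⟨c, hc, h⟩ := analytic (J + 1) (by omega) D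
  refine ⟨c, hc, ?_⟩
  intro t n ht hkn P hP
  have hn : 1 ≤ n := by omega
  have hm1 : 1 ≤ P.card := by
    obtain ⟨X, -, hX⟩ := Finset.exists_subset_card_eq
      (show s * 2 ^ r + e ≤ (univ : Finset (Fin n)).card by simpa using hkn)
    have h1 := hP X hX
    by_contra hlt
    have h0 : P = ∅ := Finset.card_eq_zero.mp (by omega)
    rw [h0] at h1
    unfold numOrd at h1
    simp at h1
    omega
  have h2 := h n P.card hn hm1 ?_
  · have he1 : (((J + 1 : ℕ) : ℝ) / (((J + 1 : ℕ) : ℝ) + 1)) = ((J : ℝ) + 1) / ((J : ℝ) + 2) := by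
      push_cast
      ring_nf
    rw [he1] at h2
    exact h2
  · intro v L hv hv2 hLv hL
    by_contra hge
    push Not at hge
    have hexp : (r + 1) * (2 * (r + 1) * (r + 1) * s * v * (2 * P.card)) +
          s * (2 ^ r * P.card + 1) + e * (P.card + 1) ≤ D * v * P.card := by
      obtain ⟨m, hm⟩ : ∃ m, m = P.card := ⟨_, rfl⟩
      rw [← hm] at hm1 ⊢
      have h1 : (r + 1) * (2 * (r + 1) * (r + 1) * s * v * (2 * m)) =
          4 * (r + 1) * (r + 1) * (r + 1) * s * (v * m) := by ring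
      have hvm : m ≤ v * m := by
        calc m = 1 * m := by ring
          _ ≤ v * m := Nat.mul_le_mul_right _ (by omega)
      have h2 : s * (2 ^ r * m + 1) ≤ s * (2 ^ r + 1) * (v * m) := by
        calc s * (2 ^ r * m + 1) ≤ s * (2 ^ r * m + m) := by gcongr
          _ = s * (2 ^ r + 1) * m := by ring
          _ ≤ s * (2 ^ r + 1) * (v * m) := Nat.mul_le_mul_left _ hvm
      have h3 : e * (m + 1) ≤ 2 * e * (v * m) := by
        calc e * (m + 1) ≤ e * (m + m) := by gcongr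
          _ = 2 * e * m := by ring
          _ ≤ 2 * e * (v * m) := Nat.mul_le_mul_left _ hvm
      calc _ ≤ 4 * (r + 1) * (r + 1) * (r + 1) * s * (v * m) + s * (2 ^ r + 1) * (v * m)
            + 2 * e * (v * m) := by omega
        _ = D * v * m := by rw [hD]; ring
    obtain ⟨X, hX, hXo⟩ := total n P.card L r s v e (J + 1) P rfl hm1 hL hs hv2 hLv he hv
      (le_trans (Nat.pow_le_pow_right (by norm_num) hexp) hge)
    have := hP X hX
    omega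

theorem partA (J k : ℕ) (hJ : 1 ≤ J) (hk : 36 * J + 1 ≤ k) : ∃ c : ℝ, 0 < c ∧
    ∀ n : ℕ, k ≤ n → ∀ P : Finset (Equiv.Perm (Fin n)),
      (∀ X : Finset (Fin n), X.card = k → 2 ^ (k - 1) ≤ numOrd n P X) →
      c * (Real.log n) ^ (((J : ℝ) + 1) / ((J : ℝ) + 2)) ≤ P.card := by
  obtain ⟨s, hs⟩ : ∃ s, s = (k - 1) / 4 := ⟨_, rfl⟩
  obtain ⟨e, he⟩ : ∃ e, e = k - s * 4 := ⟨_, rfl⟩
  have hs1 : 9 * J ≤ s := by omega
  have he1 : 1 ≤ e := by omega
  have hke : s * 2 ^ 2 + e = k := by omega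
  obtain ⟨c, hc, h⟩ := general 2 s e J (by omega) he1
  refine ⟨c, hc, fun n hn P hP => ?_⟩
  rw [hke] at h
  refine h (2 ^ (k - 1)) n ?_ hn P hP
  have h1 := numA J s hJ hs1
  calc 2 ^ (e - 1) * ∑ b ∈ range (J + 1), Z (2 ^ (2 + 1)) ((2 ^ 2 + 1).factorial) s b
      < 2 ^ (e - 1) * 2 ^ (4 * s) := by
        apply Nat.mul_lt_mul_of_pos_left h1 (by positivity)
    _ = 2 ^ (k - 1) := by
        rw [← pow_add]
        congr 1
        omega

theorem partB (J k : ℕ) (hk : 2 ≤ k) : ∃ c : ℝ, 0 < c ∧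
    ∀ t n : ℕ, (2 : ℝ) ^ (20 * ((J : ℝ) + 1) * √(k : ℝ) * Real.log k) ≤ t → k ≤ n →
      ∀ P : Finset (Equiv.Perm (Fin n)),
      (∀ X : Finset (Fin n), X.card = k → t ≤ numOrd n P X) →
      c * (Real.log n) ^ (((J : ℝ) + 1) / ((J : ℝ) + 2)) ≤ P.card := by
  obtain ⟨r, s, e, hs, he, hke, hlt⟩ := numB J k hk
  obtain ⟨c, hc, h⟩ := general r s e J hs he
  refine ⟨c, hc, fun t n ht hkn P hP => ?_⟩
  rw [← hke] at h
  refine h t n ?_ hkn P hP
  exact_mod_cast lt_of_lt_of_le hlt ht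

theorem partC' (k s : ℕ) (hs7 : s = 7) (hk : 29 ≤ k)
    (hnum : ∑ b ∈ range (1 + 1), Z (2 ^ (2 + 1)) ((2 ^ 2 + 1).factorial) s b < 2 ^ (4 * s)) :
    ∃ c : ℝ, 0 < c ∧
    ∀ n : ℕ, k ≤ n → ∀ P : Finset (Equiv.Perm (Fin n)),
      (∀ X : Finset (Fin n), X.card = k → 2 ^ (k - 1) ≤ numOrd n P X) →
      c * (Real.log n) ^ ((2 : ℝ) / 3) ≤ P.card := by
  obtain ⟨e, he⟩ : ∃ e, e = k - 28 := ⟨_, rfl⟩
  have hke : s * 2 ^ 2 + e = k := by omega
  obtain ⟨c, hc, h⟩ := general 2 s e 1 (by omega) (by omega)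
  refine ⟨c, hc, fun n hn P hP => ?_⟩
  rw [hke] at h
  have h0 : ((((1 : ℕ) : ℝ) + 1) / (((1 : ℕ) : ℝ) + 2)) = (2 : ℝ) / 3 := by norm_num
  rw [h0] at h
  refine h (2 ^ (k - 1)) n ?_ hn P hP
  calc 2 ^ (e - 1) * ∑ b ∈ range (1 + 1), Z (2 ^ (2 + 1)) ((2 ^ 2 + 1).factorial) s b
      < 2 ^ (e - 1) * 2 ^ (4 * s) := by
        apply Nat.mul_lt_mul_of_pos_left hnum (by positivity)
    _ = 2 ^ (k - 1) := by
        rw [← pow_add]
        congr 1
        omega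

theorem partC (k : ℕ) (hk : 29 ≤ k) : ∃ c : ℝ, 0 < c ∧
    ∀ n : ℕ, k ≤ n → ∀ P : Finset (Equiv.Perm (Fin n)),
      (∀ X : Finset (Fin n), X.card = k → 2 ^ (k - 1) ≤ numOrd n P X) →
      c * (Real.log n) ^ ((2 : ℝ) / 3) ≤ P.card :=
  partC' k 7 rfl hk numC

end H43.PS
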