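import Pool.Agent.H43.PS.LemD
import Pool.Agent.H43.PS.Avg
import Pool.Agent.H43.PS.Sign

/-!
# Module GADGET: the gadget lemma

Proof.
* `core` with `β = 2 * r * r * m` and `lemD` (as `IH`) gives `𝒮`, `T`, `σ`;
  `β + 2 * (r + 1) * m ≤ 2 * (r + 1) * (r + 1) * m`.
* `avg` with `J = univ \ T`: `S ∈ 𝒮` such that `Bad = {y ∈ Y : ∃ i ∉ T, InHull (f i) S (f i y)}`
  has `4 * Bad.card ≤ Y.card`.
* Let `Y₂ = (Y \ Bad) \ S`; `Y₂.card ≥ Y.card - Y.card / 4 - 2 ^ r ≥ Y.card / 2`, i.e.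
  `Y.card ≤ 2 * Y₂.card`: since `4 * 2 ^ r = 2 ^ (r + 2) ≤ 2 ^ ((r + 1) * τ) ≤ Y.card`
  (`2 ≤ τ` by the threshold, as `1 ≤ m`, and `L ≥ 2` as `4 ≤ 2 ^ L`).
* `sign` for `S`, `Y₂`: `Y' ⊆ Y₂`, `Y₂.card ≤ Y'.card * 2 ^ (2 ^ r * m)`.
* Let `y ∈ Y'`.  For `i ∉ T` the point `f i y` is not in the hull of `S`; `S` is nonempty, so all
  of `S` is below `y` or all of `S` is above `y` in order `i` (if `f i a ≤ f i y` for no `a ∈ S`
  then `y` is below `S`; otherwise `f i b < f i y` for all `b ∈ S`).  So for `i, i' ∉ T` with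
  `σ i = σ i'` and (`y` below `S` for `i` iff for `i'`) we get
  `rel (f i) (insert y S) = rel (f i') (insert y S)`; so the image of `univ \ T` has at most as
  many elements as the type `(Fin r → Bool) × Bool`, i.e. `2 ^ r * 2 = 2 ^ (r + 1)`.
-/

set_option autoImplicit false

namespace H43.PS

open Finset
/-- a function which factors through a finite type on `J` has a small image on `J` -/
theorem gadget_card_image {ι β γ : Type} [DecidableEq β] [Fintype γ] (J : Finset ι) (F : ι → β) (g : ι → γ)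
    (h : ∀ i ∈ J, ∀ i' ∈ J, g i = g i' → F i = F i') : (J.image F).card ≤ Fintype.card γ := by
  rcases J.eq_empty_or_nonempty with rfl | ⟨i₀, hi₀⟩
  · simp
  have hex : ∀ x : β, ∃ i : ι, x ∈ J.image F → i ∈ J ∧ F i = x := by
    intro x
    by_cases hx : x ∈ J.image F
    · obtain ⟨i, hi, hix⟩ := Finset.mem_image.1 hx
      exact ⟨i, fun _ => ⟨hi, hix⟩⟩
    · exact ⟨i₀, fun h => absurd h hx⟩
  choose c hc using hex
  rw [← Finset.card_univ]
  apply Finset.card_le_card_of_injOn (fun x => g (c x)) (fun _ _ => Finset.mem_coe.2 (Finset.mem_univ _))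
  intro x hx x' hx' hxx
  have h1 := hc x (Finset.mem_coe.1 hx)
  have h2 := hc x' (Finset.mem_coe.1 hx')
  rw [← h1.2, ← h2.2]
  exact h _ h1.1 _ h2.1 hxx

/-- the ordering of `insert y S` is determined by the ordering of `S` and the side of `y` -/
theorem gadget_rel_insert {α : Type} [DecidableEq α] (g g' : α → ℕ) (S : Finset α) (y : α)
    (hS : rel g S = rel g' S) (h1 : ¬ InHull g S (g y)) (h2 : ¬ InHull g' S (g' y))
    (h3 : (∃ a ∈ S, g a ≤ g y) ↔ (∃ a ∈ S, g' a ≤ g' y)) :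
    rel g (insert y S) = rel g' (insert y S) := by
  have hS' : ∀ a ∈ S, ∀ b ∈ S, (g a < g b ↔ g' a < g' b) := by
    intro a ha b hb
    have := Finset.ext_iff.1 hS (a, b)
    rw [mem_rel, mem_rel] at this
    tauto
  have side : ∀ h : α → ℕ, ¬ InHull h S (h y) →
      ((∃ a ∈ S, h a ≤ h y) ∧ ∀ b ∈ S, h b < h y) ∨
      (¬ (∃ a ∈ S, h a ≤ h y) ∧ ∀ b ∈ S, h y < h b) := by
    intro h hh
    by_cases hA : ∃ a ∈ S, h a ≤ h y
    · refine Or.inl ⟨hA, fun b hb => ?_⟩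
      by_contra hcon
      exact hh ⟨hA, b, hb, not_lt.1 hcon⟩
    · refine Or.inr ⟨hA, fun b hb => ?_⟩
      by_contra hcon
      exact hA ⟨b, hb, not_lt.1 hcon⟩
  have key : (∀ a ∈ S, (g a < g y ↔ g' a < g' y)) ∧ (∀ a ∈ S, (g y < g a ↔ g' y < g' a)) := by
    rcases side g h1 with ⟨hA, hb⟩ | ⟨hA, hb⟩
    · rcases side g' h2 with ⟨hA', hb'⟩ | ⟨hA', hb'⟩
      · exact ⟨fun a ha => iff_of_true (hb a ha) (hb' a ha),
          fun a ha => iff_of_false (not_lt.2 (hb a ha).le) (not_lt.2 (hb' a ha).le)⟩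
      · exact absurd (h3.1 hA) hA'
    · rcases side g' h2 with ⟨hA', hb'⟩ | ⟨hA', hb'⟩
      · exact absurd (h3.2 hA') hA
      · exact ⟨fun a ha => iff_of_false (not_lt.2 (hb a ha).le) (not_lt.2 (hb' a ha).le),
          fun a ha => iff_of_true (hb a ha) (hb' a ha)⟩
  ext ⟨a, b⟩
  rw [mem_rel, mem_rel]
  constructor
  · rintro ⟨ha, hb, hab⟩
    refine ⟨ha, hb, ?_⟩
    rw [Finset.mem_insert] at ha hb
    rcases ha with rfl | ha <;> rcases hb with rfl | hb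
    · exact absurd hab (lt_irrefl _)
    · exact (key.2 b hb).1 hab
    · exact (key.1 a ha).1 hab
    · exact (hS' a ha b hb).1 hab
  · rintro ⟨ha, hb, hab⟩
    refine ⟨ha, hb, ?_⟩
    rw [Finset.mem_insert] at ha hb
    rcases ha with rfl | ha <;> rcases hb with rfl | hb
    · exact absurd hab (lt_irrefl _)
    · exact (key.2 b hb).2 hab
    · exact (key.1 a ha).2 hab
    · exact (hS' a ha b hb).2 hab

open scoped Classical in
theorem gadget {ι α : Type} [Fintype ι] (f : ι → α → ℕ)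
    (hf : ∀ i, Function.Injective (f i)) (m L : ℕ) (hm : Fintype.card ι = m) (hm1 : 1 ≤ m)
    (hL : 4 * m ≤ 2 ^ L) (κ : ι → ℕ) (τ : ℕ) (hτ : ∑ i, κ i = τ) (hκ : ∀ i, 2 * L ≤ κ i)
    (r : ℕ) (hthr : (r + 1) * m + m * L + 1 ≤ τ) (Y : Finset α) (hY : 2 ^ ((r + 1) * τ) ≤ Y.card) :
    ∃ (S Y' : Finset α) (T : Finset ι), S ⊆ Y ∧ Y' ⊆ Y ∧ Disjoint S Y' ∧ S.card = 2 ^ r ∧
      Y.card ≤ Y'.card * 2 ^ (2 ^ r * m + 1) ∧ (∀ i, ∀ p ∈ S, Sep (f i) {p} Y') ∧
      ∑ i ∈ T, κ i ≤ 2 * (r + 1) * (r + 1) * m ∧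
      ∀ y ∈ Y', ((univ \ T).image (fun i => rel (f i) (insert y S))).card ≤ 2 ^ (r + 1) := by
  have hrm : (r + 1) * m = r * m + m := by ring
  obtain ⟨𝒮, T, σ, hcard, hS, _, hTsum, hout⟩ := core f hf m L hm hm1 hL κ τ r
    (2 * r * r * m) hτ hthr hκ
    (lemD f hf m L hm hm1 hL κ τ hτ hκ r (by omega)) Y hY
  obtain ⟨S, hS𝒮, hbad⟩ := avg f (univ \ T) m hm1 (by
    rw [← hm]; exact Finset.card_le_univ _) 𝒮 (Finset.card_pos.1 (by omega)) Y
    (fun i hi c => hout i (Finset.mem_sdiff.1 hi).2 c)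
  obtain ⟨hSY, hlock⟩ := hS S hS𝒮
  obtain ⟨Bad, hBad, hbad'⟩ : ∃ Bad : Finset α,
      (∀ y, y ∈ Bad ↔ y ∈ Y ∧ ∃ i ∈ univ \ T, InHull (f i) S (f i y)) ∧
      4 * Bad.card ≤ Y.card := ⟨_, fun y => Finset.mem_filter, hbad⟩
  set Y₂ := (Y \ Bad) \ S with hY₂
  have hd : Disjoint S Y₂ := Finset.disjoint_sdiff
  have hY₂Y : Y₂ ⊆ Y := Finset.sdiff_subset.trans Finset.sdiff_subset
  obtain ⟨Y', hY'sub, hY'card, hY'sep⟩ := sign f hf m hm S Y₂ hd
  have hτ2 : 2 ≤ τ := by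
    have : 1 ≤ (r + 1) * m := Nat.mul_pos (Nat.succ_pos r) hm1
    omega
  have h4 : 4 * 2 ^ r ≤ Y.card := by
    calc 4 * 2 ^ r = 2 ^ (r + 2) := by rw [pow_add]; ring
      _ ≤ 2 ^ ((r + 1) * τ) := by
        apply Nat.pow_le_pow_right (by norm_num)
        calc r + 2 ≤ (r + 1) * 2 := by omega
          _ ≤ (r + 1) * τ := Nat.mul_le_mul_left _ hτ2
      _ ≤ Y.card := hY
  have hc1 : Y.card - Bad.card ≤ (Y \ Bad).card := Finset.le_card_sdiff _ _
  have hc2 : (Y \ Bad).card - S.card ≤ Y₂.card := Finset.le_card_sdiff _ _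
  have hSc : S.card = 2 ^ r := hlock.1
  have hYle : Y.card ≤ 2 * Y₂.card := by
    rw [hSc] at hc2
    omega
  refine ⟨S, Y', T, hSY, hY'sub.trans hY₂Y, Finset.disjoint_of_subset_right hY'sub hd, hSc, ?_,
    hY'sep, ?_, ?_⟩
  · rw [hSc] at hY'card
    calc Y.card ≤ 2 * Y₂.card := hYle
      _ ≤ 2 * (Y'.card * 2 ^ (2 ^ r * m)) := Nat.mul_le_mul_left _ hY'card
      _ = Y'.card * 2 ^ (2 ^ r * m + 1) := by rw [pow_succ]; ring
  · refine hTsum.trans ?_
    nlinarith [Nat.zero_le (r * m)]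
  · intro y hy
    have hy2 := hY'sub hy
    have hyY := hY₂Y hy2
    have hybad : y ∉ Bad := (Finset.mem_sdiff.1 (Finset.mem_sdiff.1 hy2).1).2
    have hull : ∀ i, i ∉ T → ¬ InHull (f i) S (f i y) := by
      intro i hi hh
      apply hybad
      rw [hBad]
      exact ⟨hyY, i, Finset.mem_sdiff.2 ⟨Finset.mem_univ _, hi⟩, hh⟩
    have h6 := gadget_card_image (univ \ T) (fun i => rel (f i) (insert y S))
      (fun i => (σ i, (∃ a ∈ S, f i a ≤ f i y))) (by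
        intro i hi i' hi' hii
        rw [Prod.mk.injEq] at hii
        have hi1 := (Finset.mem_sdiff.1 hi).2
        have hi2 := (Finset.mem_sdiff.1 hi').2
        exact gadget_rel_insert (f i) (f i') S y (hlock.2 i i' hi1 hi2 hii.1) (hull i hi1)
          (hull i' hi2) (iff_of_eq hii.2))
    refine h6.trans ?_
    rw [Fintype.card_prod, Fintype.card_fun, Fintype.card_bool, Fintype.card_fin,
      Fintype.card_prop, pow_succ]

end H43.PS
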