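import Pool.Agent.H43.PS.Defs

/-!
# Module JOIN: the union of two separated locked sets with the same colours is locked

`S`, `S'` disjoint, both locked with the same `T`, `σ`, and separated for every `i ∉ T`.  Put
`σ' i = Fin.cons (decide (Below (f i) S S')) (σ i)`.  If `i, i' ∉ T` and `σ' i = σ' i'` then
`σ i = σ i'` (tail) and `Below (f i) S S' ↔ Below (f i') S S'`.  A pair `(a, b)` of points of
`S ∪ S'` is in `rel (f i) (S ∪ S')` iff `f i a < f i b`; both in `S` or both in `S'`: the same for
`i'` by lockedness (`mem_rel`).  If `a ∈ S`, `b ∈ S'`: `f i a < f i b ↔ Below (f i) S S'`, because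
`Sep (f i) S S'` (if not `Below (f i) S S'` then `Below (f i) S' S`); similarly for `a ∈ S'`,
`b ∈ S`: `f i a < f i b ↔ ¬ Below (f i) S S'`.  Cardinality: `2 ^ r + 2 ^ r = 2 ^ (r + 1)`.
-/

set_option autoImplicit false

namespace H43.PS

open Finset

theorem join {ι α : Type} [DecidableEq α] (f : ι → α → ℕ) (r : ℕ) (S S' : Finset α)
    (T : Finset ι) (σ : ι → Fin r → Bool) (hS : Locked f r S T σ) (hS' : Locked f r S' T σ)
    (hd : Disjoint S S') (hsep : ∀ i, i ∉ T → Sep (f i) S S') :
    ∃ σ' : ι → Fin (r + 1) → Bool, Locked f (r + 1) (S ∪ S') T σ' := by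
  classical
  obtain ⟨hc, hS⟩ := hS
  obtain ⟨hc', hS'⟩ := hS'
  have hne : S.Nonempty := by
    rw [← Finset.card_pos, hc]; positivity
  have hne' : S'.Nonempty := by
    rw [← Finset.card_pos, hc']; positivity
  refine ⟨fun i => Fin.cons (decide (Below (f i) S S')) (σ i), ?_, ?_⟩
  · rw [Finset.card_union_of_disjoint hd, hc, hc', pow_succ]; ring
  · intro i i' hi hi' h
    rw [Fin.cons_inj] at h
    obtain ⟨h1, h2⟩ := h
    have h1' : Below (f i) S S' ↔ Below (f i') S S' := by simpa using h1
    have e1 := hS i i' hi hi' h2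
    have e2 := hS' i i' hi hi' h2
    have hlt : ∀ j, j ∉ T → ∀ a ∈ S, ∀ b ∈ S', (f j a < f j b ↔ Below (f j) S S') := by
      intro j hj a ha b hb
      constructor
      · intro hab
        rcases hsep j hj with h | h
        · exact h
        · exact absurd (h b hb a ha) (not_lt.2 hab.le)
      · intro h; exact h a ha b hb
    have hlt' : ∀ j, j ∉ T → ∀ a ∈ S, ∀ b ∈ S', (f j b < f j a ↔ ¬ Below (f j) S S') := by
      intro j hj a ha b hb
      constructor
      · intro hab h
        exact absurd (h a ha b hb) (not_lt.2 hab.le)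
      · intro h
        rcases hsep j hj with h' | h'
        · exact absurd h' h
        · exact h' b hb a ha
    ext ⟨a, b⟩
    rw [mem_rel, mem_rel]
    have key : a ∈ S ∪ S' → b ∈ S ∪ S' → (f i a < f i b ↔ f i' a < f i' b) := by
      intro ha hb
      rcases Finset.mem_union.1 ha with ha | ha <;> rcases Finset.mem_union.1 hb with hb | hb
      · have e3 : (a, b) ∈ rel (f i) S ↔ (a, b) ∈ rel (f i') S := by rw [e1]
        rw [mem_rel, mem_rel] at e3
        tauto
      · rw [hlt i hi a ha b hb, hlt i' hi' a ha b hb]; exact h1'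
      · rw [hlt' i hi b hb a ha, hlt' i' hi' b hb a ha]; exact not_congr h1'
      · have e3 : (a, b) ∈ rel (f i) S' ↔ (a, b) ∈ rel (f i') S' := by rw [e2]
        rw [mem_rel, mem_rel] at e3
        tauto
    tauto

end H43.PS
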