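import Pool.Agent.H43.PS.Defs

/-!
# Module PAIR: two members of the family separated in all orders of `J`

If `J = ∅` take any two different members.  Otherwise count the ordered pairs `(S, S')` of
members such that `¬ Sep (f i) S S'` for some `i ∈ J`.  For nonempty `S`, `S'` (all members are
nonempty) `¬ Sep g S S'` implies that `lo S` is in the hull of `S'` or `lo S'` is in the hull of
`S`, where `lo S` is the minimum of `g` on `S`: say `lo S ≤ lo S'`; if all of `g (S)` were below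
`lo S'` we would have `Below g S S'`; so there is `b ∈ S` with `lo S' ≤ g b`, and `lo S ≤ lo S'`.
Hence for each `i ∈ J` the number of bad pairs is at most
`2 * ∑ S, #{S' : InHull (f i) S' (lo S)}`, and `4 * m * #{...} < 𝒮.card` for each `S`, so
`2 * m * (number of bad pairs for i) < 𝒮.card ^ 2` (`𝒮` is nonempty).  With `J.card ≤ m`,
`1 ≤ J.card`, the total number of bad pairs is less than `𝒮.card ^ 2`; so there is a pair
`(S, S')` with `Sep (f i) S S'` for all `i ∈ J`; and `S ≠ S'` because a nonempty set is not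
separated from itself and `J` is nonempty.
-/

set_option autoImplicit false

namespace H43.PS

open Finset
open scoped Classical in
theorem pair {ι α : Type} (f : ι → α → ℕ) (J : Finset ι) (m : ℕ)
    (hJ : J.card ≤ m) (𝒮 : Finset (Finset α)) (h2 : 2 ≤ 𝒮.card) (hne : ∀ S ∈ 𝒮, S.Nonempty)
    (H : ∀ i ∈ J, ∀ c, 4 * m * (𝒮.filter (fun S => InHull (f i) S c)).card < 𝒮.card) :
    ∃ S ∈ 𝒮, ∃ S' ∈ 𝒮, S ≠ S' ∧ ∀ i ∈ J, Sep (f i) S S' := by
  classical
  rcases J.eq_empty_or_nonempty with hJ0 | hJne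
  · obtain ⟨S, hS, S', hS', hne'⟩ := Finset.one_lt_card.1 (lt_of_lt_of_le one_lt_two h2)
    exact ⟨S, hS, S', hS', hne', by simp [hJ0]⟩
  set n := 𝒮.card with hn
  have hn0 : 0 < n := by omega
  have hm : 1 ≤ m := le_trans hJne.card_pos hJ
  -- the lowest value
  let lo : (α → ℕ) → Finset α → ℕ := fun g S => sInf (g '' (S : Set α))
  have lo_mem : ∀ (g : α → ℕ) (S : Finset α), S.Nonempty → ∃ a ∈ S, g a = lo g S := by
    intro g S hS
    obtain ⟨a, ha⟩ := hS
    have h := Nat.sInf_mem (s := g '' (S : Set α)) ⟨g a, a, ha, rfl⟩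
    obtain ⟨b, hb, hb'⟩ := h
    exact ⟨b, hb, hb'⟩
  have lo_le : ∀ (g : α → ℕ) (S : Finset α), ∀ b ∈ S, lo g S ≤ g b := by
    intro g S b hb
    exact Nat.sInf_le ⟨b, hb, rfl⟩
  have key : ∀ (g : α → ℕ), ∀ S ∈ 𝒮, ∀ S' ∈ 𝒮, ¬ Sep g S S' →
      InHull g S' (lo g S) ∨ InHull g S (lo g S') := by
    intro g S hS S' hS' hns
    unfold Sep Below at hns
    push Not at hns
    obtain ⟨⟨a, ha, b, hb, hab⟩, ⟨b', hb', a', ha', hab'⟩⟩ := hns
    rcases le_total (lo g S) (lo g S') with h | h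
    · right
      obtain ⟨a0, ha0, e0⟩ := lo_mem g S (hne S hS)
      exact ⟨⟨a0, ha0, by rw [e0]; exact h⟩, ⟨a, ha, (lo_le g S' b hb).trans hab⟩⟩
    · left
      obtain ⟨b0, hb0, e0⟩ := lo_mem g S' (hne S' hS')
      exact ⟨⟨b0, hb0, by rw [e0]; exact h⟩, ⟨b', hb', (lo_le g S a' ha').trans hab'⟩⟩
  let F : ι → Finset (Finset α × Finset α) := fun i =>
    (𝒮 ×ˢ 𝒮).filter fun p => InHull (f i) p.2 (lo (f i) p.1)
  let G : ι → Finset (Finset α × Finset α) := fun i =>
    (𝒮 ×ˢ 𝒮).filter fun p => InHull (f i) p.1 (lo (f i) p.2)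
  have hFc : ∀ i, (F i).card = ∑ S ∈ 𝒮, (𝒮.filter fun S' => InHull (f i) S' (lo (f i) S)).card := by
    intro i
    simp only [F, Finset.card_filter, Finset.sum_product]
  have hGc : ∀ i, (G i).card = ∑ S ∈ 𝒮, (𝒮.filter fun S' => InHull (f i) S' (lo (f i) S)).card := by
    intro i
    simp only [G, Finset.card_filter, Finset.sum_product_right]
  have hlt : ∀ i ∈ J, 4 * m * (F i).card < n ^ 2 := by
    intro i hi
    rw [hFc, Finset.mul_sum]
    have h𝒮ne : 𝒮.Nonempty := Finset.card_pos.1 hn0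
    calc ∑ S ∈ 𝒮, 4 * m * (𝒮.filter fun S' => InHull (f i) S' (lo (f i) S)).card
        < ∑ S ∈ 𝒮, n := Finset.sum_lt_sum_of_nonempty h𝒮ne fun S _ => H i hi _
      _ = n ^ 2 := by rw [Finset.sum_const, smul_eq_mul, pow_two]
  by_contra hcon
  push Not at hcon
  have hcov : 𝒮 ×ˢ 𝒮 ⊆ J.biUnion fun i => F i ∪ G i := by
    rintro ⟨S, S'⟩ hp
    rw [Finset.mem_product] at hp
    obtain ⟨hS, hS'⟩ := hp
    simp only at hS hS'
    have hex : ∃ i ∈ J, ¬ Sep (f i) S S' := by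
      by_cases hSS : S = S'
      · obtain ⟨i, hi⟩ := hJne
        refine ⟨i, hi, ?_⟩
        subst hSS
        obtain ⟨a, ha⟩ := hne S hS
        rintro (h | h)
        · exact lt_irrefl _ (h a ha a ha)
        · exact lt_irrefl _ (h a ha a ha)
      · exact hcon S hS S' hS' hSS
    obtain ⟨i, hi, hns⟩ := hex
    refine Finset.mem_biUnion.2 ⟨i, hi, Finset.mem_union.2 ?_⟩
    rcases key (f i) S hS S' hS' hns with h | h
    · exact Or.inl (Finset.mem_filter.2 ⟨Finset.mem_product.2 ⟨hS, hS'⟩, h⟩)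
    · exact Or.inr (Finset.mem_filter.2 ⟨Finset.mem_product.2 ⟨hS, hS'⟩, h⟩)
  have h1 : n ^ 2 ≤ ∑ i ∈ J, 2 * (F i).card := by
    calc n ^ 2 = (𝒮 ×ˢ 𝒮).card := by rw [Finset.card_product, pow_two]
      _ ≤ (J.biUnion fun i => F i ∪ G i).card := Finset.card_le_card hcov
      _ ≤ ∑ i ∈ J, (F i ∪ G i).card := Finset.card_biUnion_le
      _ ≤ ∑ i ∈ J, 2 * (F i).card := by
        refine Finset.sum_le_sum fun i _ => ?_
        have := Finset.card_union_le (F i) (G i)
        rw [hGc, ← hFc] at this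
        omega
  have h2' : ∑ i ∈ J, 4 * m * (F i).card < ∑ _i ∈ J, n ^ 2 :=
    Finset.sum_lt_sum_of_nonempty hJne hlt
  have h3 : 2 * m * n ^ 2 ≤ ∑ i ∈ J, 4 * m * (F i).card := by
    calc 2 * m * n ^ 2 ≤ 2 * m * ∑ i ∈ J, 2 * (F i).card := Nat.mul_le_mul_left _ h1
      _ = ∑ i ∈ J, 4 * m * (F i).card := by
        rw [Finset.mul_sum]
        exact Finset.sum_congr rfl fun i _ => by ring
  rw [Finset.sum_const, smul_eq_mul] at h2'
  have h4 : J.card * n ^ 2 ≤ m * n ^ 2 := Nat.mul_le_mul_right _ hJ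
  have h5 : 0 < n ^ 2 := by positivity
  nlinarith

end H43.PS
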