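import Pool.Agent.H43.PS.Core
import Pool.Agent.H43.PS.Pair
import Pool.Agent.H43.PS.Join

/-!
# Module LEMD: locked sets of depth `r`

Induction on `r`.  `r = 0`: `1 ≤ Y.card`, take `S = {y}`, `T = ∅`, any `σ`
(`σ : ι → Fin 0 → Bool`; `rel g {y} = ∅` for every `g`).
`r + 1`: `core` with `β = 2 * r * r * m` and the induction hypothesis (whose threshold
`r * m + m * L + 1 ≤ τ` is weaker) gives a family `𝒮`; its members have `2 ^ r ≥ 1` points, so
`pair` with `J = univ \ T` (`J.card ≤ m`) gives `S ≠ S'` in `𝒮` with `Sep (f i) S S'` for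
`i ∉ T`; they are disjoint.  `join` gives the locked set `S ∪ S'` of depth `r + 1`, and
`2 * r * r * m + 2 * (r + 1) * m ≤ 2 * (r + 1) * (r + 1) * m`.
-/

set_option autoImplicit false

namespace H43.PS

open Finset
open scoped Classical in
theorem lemD {ι α : Type} [Fintype ι] (f : ι → α → ℕ)
    (hf : ∀ i, Function.Injective (f i)) (m L : ℕ) (hm : Fintype.card ι = m) (hm1 : 1 ≤ m)
    (hL : 4 * m ≤ 2 ^ L) (κ : ι → ℕ) (τ : ℕ) (hτ : ∑ i, κ i = τ) (hκ : ∀ i, 2 * L ≤ κ i) :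
    ∀ r : ℕ, r * m + m * L + 1 ≤ τ → ∀ Y : Finset α, 2 ^ (r * τ) ≤ Y.card →
      ∃ S ⊆ Y, ∃ (T : Finset ι) (σ : ι → Fin r → Bool),
        Locked f r S T σ ∧ ∑ i ∈ T, κ i ≤ 2 * r * r * m := by
  intro r
  induction r with
  | zero =>
    intro _ Y hY
    have hpos : 0 < Y.card := by
      rw [Nat.zero_mul, pow_zero] at hY
      omega
    obtain ⟨y, hy⟩ := Finset.card_pos.1 hpos
    refine ⟨{y}, Finset.singleton_subset_iff.2 hy, ∅, fun _ => Fin.elim0, ⟨by simp, ?_⟩, by simp⟩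
    intro i i' _ _ _
    have h1 : ∀ g : α → ℕ, rel g {y} = ∅ := by
      intro g
      ext ⟨a, b⟩
      rw [mem_rel]
      simp only [Finset.mem_singleton, Finset.notMem_empty, iff_false]
      rintro ⟨rfl, rfl, h⟩
      exact lt_irrefl _ h
    rw [h1, h1]
  | succ r ih =>
    intro hthr Y hY
    have hthr' : r * m + m * L + 1 ≤ τ := by
      have : (r + 1) * m = r * m + m := by ring
      omega
    obtain ⟨𝒮, T, σ, h2, hlock, hdisj, hsum, hsparse⟩ :=
      core f hf m L hm hm1 hL κ τ r (2 * r * r * m) hτ hthr hκ (ih hthr') Y hY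
    have hne : ∀ S ∈ 𝒮, S.Nonempty := by
      intro S hS
      rw [← Finset.card_pos, (hlock S hS).2.1]
      positivity
    have hJ : (Finset.univ \ T).card ≤ m := by
      rw [← hm, ← Finset.card_univ]
      exact Finset.card_le_card (Finset.subset_univ _)
    obtain ⟨S, hS, S', hS', hneq, hsep⟩ := pair f (Finset.univ \ T) m hJ 𝒮 h2 hne
      (fun i hi c => hsparse i (Finset.mem_sdiff.1 hi).2 c)
    have hd := hdisj S hS S' hS' hneq
    obtain ⟨σ', hσ'⟩ := join f r S S' T σ (hlock S hS).2 (hlock S' hS').2 hd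
      (fun i hi => hsep i (Finset.mem_sdiff.2 ⟨Finset.mem_univ i, hi⟩))
    refine ⟨S ∪ S', Finset.union_subset (hlock S hS).1 (hlock S' hS').1, T, σ', hσ', ?_⟩
    refine hsum.trans ?_
    nlinarith [Nat.zero_le (r * m)]

end H43.PS
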