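import Pool.Agent.H43.PS.Defs

/-!
# Module NUMA: the numerical estimates for the counting numbers

* `Z_le`: `A ^ s * ∑ b ∈ range (J + 1), Z U W s b ≤ A ^ J * (A * U + W) ^ s` for `A ≥ 1`.
  By induction on `s` one has `∑ b ∈ range N, Z U W s b * W₀^b A^(…)`...; cleanest: work with
  `x = 1 / A` in `ℝ` (or `ℚ`): `∑ b ∈ range N, Z U W s b * x ^ b ≤ (U + W * x) ^ s` for every
  `N` and `x ≥ 0` (induction on `s`: `∑ b ∈ range (N+1), Z (s+1) b x^b = U * ∑ b ∈ range (N+1),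
  Z s b x^b + W x ∑ b ∈ range N, Z s b x^b`), and for `b ≤ J`, `1 ≤ A ^ J * x ^ b`; so
  `∑ b ∈ range (J + 1), Z U W s b ≤ A ^ J * (U + W / A) ^ s`.
* `numA`: `r = 2`, `U = 8`, `W = 120 = 5!`, `A = 120`: `∑ ≤ 120 ^ J * 9 ^ s`, and for
  `9 * J ≤ s`, `1 ≤ J`: `120 ^ J * 9 ^ s < 16 ^ s`, because
  `120 * 9 ^ 9 < 16 ^ 9` gives `120 ^ J * 9 ^ (9 * J) < 16 ^ (9 * J)`, and multiply by
  `9 ^ (s - 9 J) ≤ 16 ^ (s - 9 J)`.
* `numC`: `Z 8 120 7 0 + Z 8 120 7 1 = 8 ^ 7 + 7 * 8 ^ 6 * 120 = 222298112 < 2 ^ 28`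
  (`decide` or `simp [Z]`).
-/

set_option autoImplicit false

namespace H43.PS

open Finset

theorem Z_weighted (U W A : ℕ) : ∀ s J : ℕ,
    A ^ s * ∑ b ∈ range (J + 1), Z U W s b * A ^ (J - b) ≤ A ^ J * (A * U + W) ^ s := by
  intro s
  induction s with
  | zero =>
    intro J
    rw [pow_zero, one_mul, pow_zero, mul_one, Finset.sum_range_succ']
    have h : ∑ b ∈ range J, Z U W 0 (b + 1) * A ^ (J - (b + 1)) = 0 :=
      Finset.sum_eq_zero fun b _ => by simp [Z]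
    rw [h]
    simp [Z]
  | succ s ih =>
    intro J
    cases J with
    | zero =>
      have h := ih 0
      simp only [zero_add, Finset.sum_range_one, Nat.sub_self, pow_zero, mul_one, one_mul] at h ⊢
      simp only [Z]
      calc A ^ (s + 1) * (U * Z U W s 0) = (A * U) * (A ^ s * Z U W s 0) := by ring
        _ ≤ (A * U) * (A * U + W) ^ s := Nat.mul_le_mul_left _ h
        _ ≤ (A * U + W) * (A * U + W) ^ s := Nat.mul_le_mul_right _ (Nat.le_add_right _ _)
        _ = (A * U + W) ^ (s + 1) := by ring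
    | succ J =>
      have h1 := ih (J + 1)
      have h2 := ih J
      have hrec : ∑ b ∈ range (J + 1 + 1), Z U W (s + 1) b * A ^ (J + 1 - b) =
          U * ∑ b ∈ range (J + 1 + 1), Z U W s b * A ^ (J + 1 - b) +
          W * ∑ b ∈ range (J + 1), Z U W s b * A ^ (J - b) := by
        rw [Finset.sum_range_succ' _ (J + 1),
          Finset.sum_range_succ' (fun b => Z U W s b * A ^ (J + 1 - b)) (J + 1)]
        simp only [Z, Nat.add_sub_add_right, Nat.sub_zero]
        rw [mul_add, Finset.mul_sum, Finset.mul_sum]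
        have h3 : ∑ x ∈ range (J + 1), (U * Z U W s (x + 1) + W * Z U W s x) * A ^ (J - x) =
            ∑ x ∈ range (J + 1), U * (Z U W s (x + 1) * A ^ (J - x)) +
            ∑ x ∈ range (J + 1), W * (Z U W s x * A ^ (J - x)) := by
          rw [← Finset.sum_add_distrib]
          exact Finset.sum_congr rfl fun x _ => by ring
        rw [h3]
        ring
      rw [hrec]
      calc A ^ (s + 1) * (U * ∑ b ∈ range (J + 1 + 1), Z U W s b * A ^ (J + 1 - b) +
            W * ∑ b ∈ range (J + 1), Z U W s b * A ^ (J - b))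
          = (A * U) * (A ^ s * ∑ b ∈ range (J + 1 + 1), Z U W s b * A ^ (J + 1 - b)) +
            (A * W) * (A ^ s * ∑ b ∈ range (J + 1), Z U W s b * A ^ (J - b)) := by ring
        _ ≤ (A * U) * (A ^ (J + 1) * (A * U + W) ^ s) + (A * W) * (A ^ J * (A * U + W) ^ s) :=
            Nat.add_le_add (Nat.mul_le_mul_left _ h1) (Nat.mul_le_mul_left _ h2)
        _ = A ^ (J + 1) * (A * U + W) ^ (s + 1) := by ring

theorem Z_le (U W A J s : ℕ) (hA : 1 ≤ A) :
    A ^ s * ∑ b ∈ range (J + 1), Z U W s b ≤ A ^ J * (A * U + W) ^ s := by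
  refine le_trans (Nat.mul_le_mul_left _ (Finset.sum_le_sum fun b _ => ?_)) (Z_weighted U W A s J)
  exact Nat.le_mul_of_pos_right _ (Nat.pow_pos hA)

theorem numA (J s : ℕ) (hJ : 1 ≤ J) (hs : 9 * J ≤ s) :
    ∑ b ∈ range (J + 1), Z (2 ^ (2 + 1)) ((2 ^ 2 + 1).factorial) s b < 2 ^ (4 * s) := by
  have h0 : (2 ^ (2 + 1) : ℕ) = 8 := by norm_num
  have h0' : ((2 ^ 2 + 1).factorial : ℕ) = 120 := by decide
  rw [h0, h0']
  have h1 := Z_le 8 120 120 J s (by norm_num)
  have h2 : (120 * 8 + 120) ^ s = 120 ^ s * 9 ^ s := by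
    rw [← mul_pow]; norm_num
  rw [h2] at h1
  have h3 : ∑ b ∈ range (J + 1), Z 8 120 s b ≤ 120 ^ J * 9 ^ s := by
    have h4 : 120 ^ s * ∑ b ∈ range (J + 1), Z 8 120 s b ≤ 120 ^ s * (120 ^ J * 9 ^ s) := by
      calc _ ≤ _ := h1
        _ = _ := by ring
    exact Nat.le_of_mul_le_mul_left h4 (by positivity)
  refine lt_of_le_of_lt h3 ?_
  obtain ⟨d, rfl⟩ := Nat.exists_eq_add_of_le hs
  calc 120 ^ J * 9 ^ (9 * J + d) = (120 * 9 ^ 9) ^ J * 9 ^ d := by
        rw [pow_add, mul_pow, ← pow_mul]; ring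
    _ < (16 ^ 9) ^ J * 9 ^ d := by
        refine Nat.mul_lt_mul_of_pos_right ?_ (by positivity)
        exact Nat.pow_lt_pow_left (by norm_num) (by omega)
    _ ≤ (16 ^ 9) ^ J * 16 ^ d := by
        refine Nat.mul_le_mul_left _ ?_
        exact Nat.pow_le_pow_left (by norm_num) _
    _ = 2 ^ (4 * (9 * J + d)) := by
        rw [← pow_mul, ← pow_add, pow_mul 2 4]
        norm_num

theorem numC : ∑ b ∈ range (1 + 1), Z (2 ^ (2 + 1)) ((2 ^ 2 + 1).factorial) 7 b < 2 ^ (4 * 7) := by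
  have h0 : (2 ^ (2 + 1) : ℕ) = 8 := by norm_num
  have h0' : ((2 ^ 2 + 1).factorial : ℕ) = 120 := by decide
  rw [h0, h0', Finset.sum_range_succ, Finset.sum_range_succ, Finset.sum_range_zero]
  simp only [Z]
  norm_num

end H43.PS
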