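import Pool.Agent.H43.PS.Gadget
import Pool.Agent.H43.PS.Extra
import Pool.Agent.H43.PS.Ords

/-!
# Module SEQ: the main induction (sequential choice of gadgets, multiplicative weights)

Induction on `s'` (number of gadgets still to be chosen), generalising `μ` and `Y`.

`s' = 0`: `extra` (with `K ⊆ Y`, `K.card = e`), `ν = 0`; for `b = 0` the image over a subset of
`univ` has at most `2 ^ (e - 1)` elements, for `b ≥ 1` the set `{i : ν i = b}` is empty.

`s' + 1 ≤ s`: put `B = 2 * (r + 1) * (r + 1)`, `Φ = ∑ i, v ^ μ i`, `κ i = B * s * v * v ^ μ i`,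
`τ = ∑ κ = B * s * v * Φ`.  As `L ≤ v` we have `2 * L ≤ κ i`.
* `m ≤ Φ` (each `v ^ μ i ≥ 1`), so `τ ≥ B * 1 * v * m ≥ (r + 1) * m + m * L + 1`.
* `s * Φ ≤ (s + (s - (s' + 1))) * m ≤ s * (2 * m)`, so `Φ ≤ 2 * m`, so
  `τ ≤ B * s * v * (2 * m)` and `2 ^ ((r + 1) * τ) ≤ Y.card`.
* `gadget` gives `S`, `Y₁`, `T` with `∑ T κ ≤ 2 * (r + 1) * (r + 1) * m = m * B`, i.e.
  `s * v * ∑ T v ^ μ i ≤ m`.
* Put `μ₁ i = μ i + (if i ∈ T then 1 else 0)`.  Then
  `∑ v ^ μ₁ i ≤ Φ + v * ∑ T v ^ μ i`, so `s * ∑ v ^ μ₁ i ≤ s * Φ + m ≤ (s + (s - s')) * m`.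
* `Y.card ≤ Y₁.card * 2 ^ (2 ^ r * m + 1)`, so `Y₁` is large enough for the induction hypothesis
  with `s'` and `μ₁`; get `K₁ ⊆ Y₁`, `ν₁`.  Put `K = S ∪ K₁`, `ν i = ν₁ i + (if i ∈ T then 1
  else 0)`; so `μ₁ + ν₁ = μ + ν`.
* Counting.  Choose `y ∈ K₁` (`K₁.card ≥ e ≥ 1`).  Let `P_b = {i : ν i = b}`.
  `P_b = (P_b \ T) ∪ (P_b ∩ T)`.  For `i ∈ P_b \ T`: `ν₁ i = b`; `step` gives at most
  `2 ^ (r + 1)` (as `P_b \ T ⊆ univ \ T`, `gadget`) times `2 ^ (e - 1) * Z U W s' b`.
  For `i ∈ P_b ∩ T`: `b ≥ 1` and `ν₁ i = b - 1`; `step` gives at most `(2 ^ r + 1)!` (`ords`,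
  `(insert y S).card = 2 ^ r + 1`) times `2 ^ (e - 1) * Z U W s' (b - 1)`.  The sum is
  `2 ^ (e - 1) * Z U W (s' + 1) b`.
-/

set_option autoImplicit false

namespace H43.PS

open Finset

/-- `step` with given bounds for the two images -/
theorem seq_step {ι α : Type} [DecidableEq ι] [DecidableEq α] (f : ι → α → ℕ)
    (P Q : Finset ι) (S K : Finset α)
    (y : α) (hy : y ∈ K) (hsep : ∀ i ∈ P, ∀ p ∈ S, Sep (f i) {p} K) (hPQ : P ⊆ Q) (A B : ℕ)
    (hA : (P.image (fun i => rel (f i) (insert y S))).card ≤ A)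
    (hB : (Q.image (fun i => rel (f i) K)).card ≤ B) :
    (P.image (fun i => rel (f i) (S ∪ K))).card ≤ A * B := by
  calc (P.image (fun i => rel (f i) (S ∪ K))).card ≤
      (P.image (fun i => rel (f i) (insert y S))).card *
        (P.image (fun i => rel (f i) K)).card := step f P S K y hy hsep
    _ ≤ A * B := by
        refine Nat.mul_le_mul hA (le_trans (Finset.card_le_card ?_) hB)
        exact Finset.image_subset_image hPQ

open scoped Classical in
theorem seq {ι α : Type} [Fintype ι] (f : ι → α → ℕ)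
    (hf : ∀ i, Function.Injective (f i)) (m L : ℕ) (hm : Fintype.card ι = m) (hm1 : 1 ≤ m)
    (hL : 4 * m ≤ 2 ^ L) (r s v e : ℕ) (hv : 2 ≤ v) (hLv : L ≤ v) (he : 1 ≤ e) :
    ∀ s' : ℕ, s' ≤ s → ∀ μ : ι → ℕ, s * ∑ i, v ^ μ i ≤ (s + (s - s')) * m →
      ∀ Y : Finset α,
        2 ^ ((r + 1) * (2 * (r + 1) * (r + 1) * s * v * (2 * m)) + s' * (2 ^ r * m + 1)
          + e * (m + 1)) ≤ Y.card →
        ∃ (K : Finset α) (ν : ι → ℕ), K ⊆ Y ∧ K.card = s' * 2 ^ r + e ∧
          s * ∑ i, v ^ (μ i + ν i) ≤ s * ∑ i, v ^ μ i + s' * m ∧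
          ∀ b, ((univ.filter (fun i => ν i = b)).image (fun i => rel (f i) K)).card ≤
            2 ^ (e - 1) * Z (2 ^ (r + 1)) ((2 ^ r + 1).factorial) s' b := by
  intro s'
  induction s' with
  | zero =>
    intro _ μ _ Y hY
    obtain ⟨K, hKY, hKe, hKo⟩ := extra f hf m hm e he Y
      (le_trans (Nat.pow_le_pow_right (by norm_num) (Nat.le_add_left _ _)) hY)
    refine ⟨K, fun _ => 0, hKY, by simpa using hKe, by simp, ?_⟩
    intro b
    cases b with
    | zero =>
      have h1 : (univ.filter (fun _ : ι => (0 : ℕ) = 0)) = (univ : Finset ι) := by simp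
      rw [h1]
      simpa [Z] using hKo
    | succ b =>
      have h1 : (univ.filter (fun _ : ι => (0 : ℕ) = b + 1)) = (∅ : Finset ι) := by
        simp
      rw [h1]
      simp
  | succ s' ih =>
    intro hs' μ hμ Y hY
    set B : ℕ := 2 * (r + 1) * (r + 1) with hBdef
    set Φ : ℕ := ∑ i, v ^ μ i with hΦ
    have hs1 : 1 ≤ s := by omega
    have hB1 : 1 ≤ B := by
      rw [hBdef]
      exact Nat.mul_pos (by omega) (by omega)
    have hB2 : 2 ≤ B := by
      rw [hBdef, mul_assoc]
      have : 1 ≤ (r + 1) * (r + 1) := Nat.mul_pos (by omega) (by omega)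
      omega
    -- lower bound for Φ
    have hmΦ : m ≤ Φ := by
      rw [hΦ]
      calc m = ∑ _i : ι, 1 := by simp [hm]
        _ ≤ ∑ i, v ^ μ i := Finset.sum_le_sum (fun i _ => Nat.one_le_pow _ _ (by omega))
    -- upper bound for Φ
    have hΦ2 : Φ ≤ 2 * m := by
      have h1 : s * Φ ≤ s * (2 * m) := by
        calc s * Φ ≤ (s + (s - (s' + 1))) * m := hμ
          _ ≤ (s + s) * m := Nat.mul_le_mul_right _ (by omega)
          _ = s * (2 * m) := by ring
      exact Nat.le_of_mul_le_mul_left h1 hs1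
    set τ : ℕ := B * s * v * Φ with hτdef
    have hτsum : ∑ i, (B * s * v * v ^ μ i) = τ := by
      rw [hτdef, hΦ, Finset.mul_sum]
    have hκ : ∀ i, 2 * L ≤ B * s * v * v ^ μ i := by
      intro i
      calc 2 * L = 2 * 1 * L * 1 := by ring
        _ ≤ B * s * v * v ^ μ i := by
            gcongr
            exact Nat.one_le_pow _ _ (by omega)
    have hthr : (r + 1) * m + m * L + 1 ≤ τ := by
      have h1 : (r + 1) * m + m * L + 1 ≤ B * 1 * v * m := by
        have h3 : (r + 1) * m + 1 ≤ (r + 1) * (r + 1) * v * m := by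
          calc (r + 1) * m + 1 ≤ (r + 1) * m + (r + 1) * m := by
                have : 1 ≤ (r + 1) * m := Nat.mul_pos (by omega) hm1
                omega
            _ = (r + 1) * 1 * 2 * m := by ring
            _ ≤ (r + 1) * (r + 1) * v * m := by
                gcongr
                omega
        have h4 : m * L ≤ (r + 1) * (r + 1) * v * m := by
          calc m * L = 1 * 1 * L * m := by ring
            _ ≤ (r + 1) * (r + 1) * v * m := by
                gcongr
                · omega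
                · omega
        have h5 : B * 1 * v * m = (r + 1) * (r + 1) * v * m + (r + 1) * (r + 1) * v * m := by
          rw [hBdef]; ring
        omega
      have h2 : B * 1 * v * m ≤ B * s * v * Φ := by gcongr
      omega
    have hYτ : 2 ^ ((r + 1) * τ) ≤ Y.card := by
      refine le_trans (Nat.pow_le_pow_right (by norm_num) ?_) hY
      have h1 : (r + 1) * τ ≤ (r + 1) * (B * s * v * (2 * m)) := by
        rw [hτdef]; gcongr
      omega
    obtain ⟨S, Y₁, T, hSY, hY₁Y, hdisj, hScard, hYY₁, hsep, hTsum, hcount⟩ :=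
      gadget f hf m L hm hm1 hL (fun i => B * s * v * v ^ μ i) τ hτsum hκ r hthr Y hYτ
    -- the new weights
    have hTΦ : s * (v * ∑ i ∈ T, v ^ μ i) ≤ m := by
      have h1 : B * (s * (v * ∑ i ∈ T, v ^ μ i)) ≤ B * m := by
        calc B * (s * (v * ∑ i ∈ T, v ^ μ i)) = B * s * v * ∑ i ∈ T, v ^ μ i := by ring
          _ = ∑ i ∈ T, B * s * v * v ^ μ i := by rw [Finset.mul_sum]
          _ ≤ 2 * (r + 1) * (r + 1) * m := hTsum
          _ = B * m := by rw [hBdef]
      exact Nat.le_of_mul_le_mul_left h1 hB1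
    set μ₁ : ι → ℕ := fun i => μ i + (if i ∈ T then 1 else 0) with hμ₁
    have hμ₁sum : ∑ i, v ^ μ₁ i ≤ Φ + v * ∑ i ∈ T, v ^ μ i := by
      have h1 : ∀ i : ι, v ^ μ₁ i ≤ v ^ μ i + (if i ∈ T then v * v ^ μ i else 0) := by
        intro i
        rw [hμ₁]
        by_cases hi : i ∈ T
        · simp only [hi, if_true]
          rw [pow_succ, mul_comm]
          exact Nat.le_add_left _ _
        · simp only [hi, if_false, add_zero]
          exact le_refl _
      calc ∑ i, v ^ μ₁ i ≤ ∑ i, (v ^ μ i + (if i ∈ T then v * v ^ μ i else 0)) :=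
            Finset.sum_le_sum (fun i _ => h1 i)
        _ = Φ + v * ∑ i ∈ T, v ^ μ i := by
            rw [Finset.sum_add_distrib, Finset.mul_sum, Finset.sum_ite_mem, Finset.univ_inter]
    have hμ₁s : s * ∑ i, v ^ μ₁ i ≤ s * Φ + m := by
      calc s * ∑ i, v ^ μ₁ i ≤ s * (Φ + v * ∑ i ∈ T, v ^ μ i) := Nat.mul_le_mul_left _ hμ₁sum
        _ = s * Φ + s * (v * ∑ i ∈ T, v ^ μ i) := by ring
        _ ≤ s * Φ + m := Nat.add_le_add_left hTΦ _
    have hμ₁b : s * ∑ i, v ^ μ₁ i ≤ (s + (s - s')) * m := by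
      have h1 : s + (s - s') = s + (s - (s' + 1)) + 1 := by omega
      rw [h1, Nat.add_mul, one_mul]
      exact le_trans hμ₁s (Nat.add_le_add_right hμ _)
    have hY₁card : 2 ^ ((r + 1) * (B * s * v * (2 * m)) + s' * (2 ^ r * m + 1)
          + e * (m + 1)) ≤ Y₁.card := by
      have h1 := hY.trans hYY₁
      have h2 : (r + 1) * (B * s * v * (2 * m)) + (s' + 1) * (2 ^ r * m + 1) + e * (m + 1) =
          ((r + 1) * (B * s * v * (2 * m)) + s' * (2 ^ r * m + 1) + e * (m + 1)) +
            (2 ^ r * m + 1) := by ring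
      rw [h2, pow_add] at h1
      exact Nat.le_of_mul_le_mul_right h1 (by positivity)
    obtain ⟨K₁, ν₁, hK₁Y₁, hK₁card, hν₁, hcount₁⟩ := ih (by omega) μ₁ hμ₁b Y₁ hY₁card
    have hK₁ne : K₁.Nonempty := by
      rw [← Finset.card_pos, hK₁card]; omega
    obtain ⟨y, hy⟩ := hK₁ne
    have hyY₁ : y ∈ Y₁ := hK₁Y₁ hy
    have hSK : Disjoint S K₁ := Finset.disjoint_of_subset_right hK₁Y₁ hdisj
    have hyS : y ∉ S := fun h => (Finset.disjoint_left.1 hdisj h) hyY₁
    have hsepK : ∀ i, ∀ p ∈ S, Sep (f i) {p} K₁ := by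
      intro i p hp
      rcases hsep i p hp with h | h
      · exact Or.inl (fun a ha b hb => h a ha b (hK₁Y₁ hb))
      · exact Or.inr (fun a ha b hb => h a (hK₁Y₁ ha) b hb)
    refine ⟨S ∪ K₁, fun i => ν₁ i + (if i ∈ T then 1 else 0), ?_, ?_, ?_, ?_⟩
    · exact Finset.union_subset hSY (hK₁Y₁.trans hY₁Y)
    · rw [Finset.card_union_of_disjoint hSK, hScard, hK₁card]; ring
    · have h1 : ∀ i : ι, μ i + (ν₁ i + (if i ∈ T then 1 else 0)) = μ₁ i + ν₁ i := by
        intro i; rw [hμ₁]; ring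
      simp only [h1]
      calc s * ∑ i, v ^ (μ₁ i + ν₁ i) ≤ s * ∑ i, v ^ μ₁ i + s' * m := hν₁
        _ ≤ s * Φ + m + s' * m := Nat.add_le_add_right hμ₁s _
        _ = s * Φ + (s' + 1) * m := by ring
    · intro b
      -- the two parts
      have hpart1 : ∀ b : ℕ, ((univ.filter
          (fun i => i ∉ T ∧ ν₁ i = b)).image (fun i => rel (f i) (S ∪ K₁))).card ≤
          2 ^ (r + 1) * (2 ^ (e - 1) * Z (2 ^ (r + 1)) ((2 ^ r + 1).factorial) s' b) := by
        intro b
        refine seq_step f _ (univ.filter (fun i => ν₁ i = b)) S K₁ y hy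
          (fun i _ => hsepK i) ?_ _ _ ?_ (hcount₁ b)
        · intro i hi
          simp only [Finset.mem_filter, Finset.mem_univ, true_and] at hi ⊢
          exact hi.2
        · refine le_trans (Finset.card_le_card (Finset.image_subset_image ?_)) (hcount y hyY₁)
          intro i hi
          simp only [Finset.mem_filter, Finset.mem_univ, true_and] at hi
          simp [hi.1]
      have hpart2 : ∀ b : ℕ, ((univ.filter
          (fun i => i ∈ T ∧ ν₁ i = b)).image (fun i => rel (f i) (S ∪ K₁))).card ≤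
          (2 ^ r + 1).factorial *
            (2 ^ (e - 1) * Z (2 ^ (r + 1)) ((2 ^ r + 1).factorial) s' b) := by
        intro b
        refine seq_step f _ (univ.filter (fun i => ν₁ i = b)) S K₁ y hy
          (fun i _ => hsepK i) ?_ _ _ ?_ (hcount₁ b)
        · intro i hi
          simp only [Finset.mem_filter, Finset.mem_univ, true_and] at hi ⊢
          exact hi.2
        · have h1 := ords f hf (univ.filter (fun i => i ∈ T ∧ ν₁ i = b)) (insert y S)
          rwa [Finset.card_insert_of_notMem hyS, hScard] at h1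
      cases b with
      | zero =>
        have h1 : (univ.filter (fun i => ν₁ i + (if i ∈ T then 1 else 0) = 0)) ⊆
            (univ.filter (fun i => i ∉ T ∧ ν₁ i = 0)) := by
          intro i hi
          simp only [Finset.mem_filter, Finset.mem_univ, true_and] at hi ⊢
          by_cases hiT : i ∈ T
          · simp [hiT] at hi
          · simp only [hiT, if_false, add_zero] at hi
            exact ⟨hiT, hi⟩
        refine le_trans (Finset.card_le_card (Finset.image_subset_image h1)) ?_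
        refine le_trans (hpart1 0) (le_of_eq ?_)
        rw [Z]; ring
      | succ b =>
        have h1 : (univ.filter (fun i => ν₁ i + (if i ∈ T then 1 else 0) = b + 1)) ⊆
            (univ.filter (fun i => i ∉ T ∧ ν₁ i = b + 1)) ∪
              (univ.filter (fun i => i ∈ T ∧ ν₁ i = b)) := by
          intro i hi
          simp only [Finset.mem_filter, Finset.mem_univ, true_and, Finset.mem_union] at hi ⊢
          by_cases hiT : i ∈ T
          · simp only [hiT, if_true] at hi
            exact Or.inr ⟨hiT, by omega⟩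
          · simp only [hiT, if_false, add_zero] at hi
            exact Or.inl ⟨hiT, hi⟩
        refine le_trans (Finset.card_le_card (Finset.image_subset_image h1)) ?_
        rw [Finset.image_union]
        refine le_trans (Finset.card_union_le _ _) ?_
        refine le_trans (Nat.add_le_add (hpart1 (b + 1)) (hpart2 b)) (le_of_eq ?_)
        rw [Z]; ring

end H43.PS
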