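import Pool.Agent.H43.PS.Defs

/-!
# Module STEP: the ordering of `S ∪ K` is determined by those of `S ∪ {y}` and of `K`

Suppose every `p ∈ S` has all of `K` on one side, in each of the orders `i ∈ P`, and `y ∈ K`.
For `i i' ∈ P` with `rel (f i) (insert y S) = rel (f i') (insert y S)` and
`rel (f i) K = rel (f i') K` one has `rel (f i) (S ∪ K) = rel (f i') (S ∪ K)`: a pair of points of
`S`, or of `K`, is clear (`mem_rel`); for `p ∈ S`, `q ∈ K`: `f i p < f i q ↔ f i p < f i y` (as
`{p}` and `K` are separated for `i`) and `(p, y) ∈ rel (f i) (insert y S) ↔ f i p < f i y`;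
similarly for `(q, p)`.  So the image of `P` under `i ↦ rel (f i) (S ∪ K)` has at most as many
elements as the image of `P` under `i ↦ (rel (f i) (insert y S), rel (f i) K)`, which is contained
in the product of the two images.
-/

set_option autoImplicit false

namespace H43.PS

open Finset

theorem step_card_image {ι γ β : Type} [DecidableEq γ] [DecidableEq β] [Inhabited β]
    (P : Finset ι) (G : ι → β) (F : ι → γ)
    (h : ∀ i ∈ P, ∀ i' ∈ P, F i = F i' → G i = G i') :
    (P.image G).card ≤ (P.image F).card := by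
  classical
  let Φ : γ → β := fun c => if hc : ∃ i ∈ P, F i = c then G hc.choose else default
  have hsub : P.image G ⊆ (P.image F).image Φ := by
    intro R hR
    obtain ⟨i, hi, rfl⟩ := Finset.mem_image.mp hR
    refine Finset.mem_image.mpr ⟨F i, Finset.mem_image_of_mem F hi, ?_⟩
    have hc : ∃ i' ∈ P, F i' = F i := ⟨i, hi, rfl⟩
    have h1 : Φ (F i) = G hc.choose := by
      simp only [Φ]
      rw [dif_pos hc]
    rw [h1]
    exact h _ hc.choose_spec.1 _ hi hc.choose_spec.2
  exact (Finset.card_le_card hsub).trans Finset.card_image_le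

theorem step {ι α : Type} [DecidableEq α] (f : ι → α → ℕ) (P : Finset ι) (S K : Finset α)
    (y : α) (hy : y ∈ K) (hsep : ∀ i ∈ P, ∀ p ∈ S, Sep (f i) {p} K) :
    (P.image (fun i => rel (f i) (S ∪ K))).card ≤
      (P.image (fun i => rel (f i) (insert y S))).card *
        (P.image (fun i => rel (f i) K)).card := by
  classical
  have key1 : ∀ i ∈ P, ∀ p ∈ S, ∀ q ∈ K,
      (f i p < f i q ↔ (p, y) ∈ rel (f i) (insert y S)) := by
    intro i hi p hp q hq
    rw [mem_rel]
    have h1 : p ∈ insert y S := Finset.mem_insert_of_mem hp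
    have h2 : y ∈ insert y S := Finset.mem_insert_self y S
    simp only [h1, h2, true_and]
    rcases hsep i hi p hp with h | h
    · have a1 := h p (Finset.mem_singleton_self p) q hq
      have a2 := h p (Finset.mem_singleton_self p) y hy
      exact ⟨fun _ => a2, fun _ => a1⟩
    · have a1 := h q hq p (Finset.mem_singleton_self p)
      have a2 := h y hy p (Finset.mem_singleton_self p)
      exact ⟨fun h3 => absurd h3 (by omega), fun h3 => absurd h3 (by omega)⟩
  have key2 : ∀ i ∈ P, ∀ p ∈ S, ∀ q ∈ K,
      (f i q < f i p ↔ (y, p) ∈ rel (f i) (insert y S)) := by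
    intro i hi p hp q hq
    rw [mem_rel]
    have h1 : p ∈ insert y S := Finset.mem_insert_of_mem hp
    have h2 : y ∈ insert y S := Finset.mem_insert_self y S
    simp only [h1, h2, true_and]
    rcases hsep i hi p hp with h | h
    · have a1 := h p (Finset.mem_singleton_self p) q hq
      have a2 := h p (Finset.mem_singleton_self p) y hy
      exact ⟨fun h3 => absurd h3 (by omega), fun h3 => absurd h3 (by omega)⟩
    · have a1 := h q hq p (Finset.mem_singleton_self p)
      have a2 := h y hy p (Finset.mem_singleton_self p)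
      exact ⟨fun _ => a2, fun _ => a1⟩
  have keyS : ∀ i, ∀ p ∈ S, ∀ q ∈ S,
      (f i p < f i q ↔ (p, q) ∈ rel (f i) (insert y S)) := by
    intro i p hp q hq
    rw [mem_rel]
    have h1 : p ∈ insert y S := Finset.mem_insert_of_mem hp
    have h2 : q ∈ insert y S := Finset.mem_insert_of_mem hq
    simp only [h1, h2, true_and]
  have keyK : ∀ i, ∀ p ∈ K, ∀ q ∈ K,
      (f i p < f i q ↔ (p, q) ∈ rel (f i) K) := by
    intro i p hp q hq
    rw [mem_rel]
    simp only [hp, hq, true_and]
  have h1 : (P.image (fun i => rel (f i) (S ∪ K))).card ≤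
      (P.image (fun i => (rel (f i) (insert y S), rel (f i) K))).card := by
    apply step_card_image
    intro i hi i' hi' hF
    simp only [Prod.mk.injEq] at hF
    obtain ⟨e1, e2⟩ := hF
    ext ⟨a, b⟩
    rw [mem_rel, mem_rel]
    constructor
    · rintro ⟨ha, hb, hlt⟩
      refine ⟨ha, hb, ?_⟩
      rcases Finset.mem_union.mp ha with ha' | ha' <;> rcases Finset.mem_union.mp hb with hb' | hb'
      · rw [keyS i' a ha' b hb', ← e1, ← keyS i a ha' b hb']; exact hlt
      · rw [key1 i' hi' a ha' b hb', ← e1, ← key1 i hi a ha' b hb']; exact hlt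
      · rw [key2 i' hi' b hb' a ha', ← e1, ← key2 i hi b hb' a ha']; exact hlt
      · rw [keyK i' a ha' b hb', ← e2, ← keyK i a ha' b hb']; exact hlt
    · rintro ⟨ha, hb, hlt⟩
      refine ⟨ha, hb, ?_⟩
      rcases Finset.mem_union.mp ha with ha' | ha' <;> rcases Finset.mem_union.mp hb with hb' | hb'
      · rw [keyS i a ha' b hb', e1, ← keyS i' a ha' b hb']; exact hlt
      · rw [key1 i hi a ha' b hb', e1, ← key1 i' hi' a ha' b hb']; exact hlt
      · rw [key2 i hi b hb' a ha', e1, ← key2 i' hi' b hb' a ha']; exact hlt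
      · rw [keyK i a ha' b hb', e2, ← keyK i' a ha' b hb']; exact hlt
  refine h1.trans ?_
  rw [← Finset.card_product]
  apply Finset.card_le_card
  intro R hR
  obtain ⟨i, hi, rfl⟩ := Finset.mem_image.mp hR
  exact Finset.mem_product.mpr ⟨Finset.mem_image_of_mem _ hi, Finset.mem_image_of_mem _ hi⟩

end H43.PS
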