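import Pool.Agent.H43.PS.Seq

/-!
# Module TOTAL: a `k`-set with few orderings

`seq` with `s' = s`, `μ = 0`, `Y = univ`.  From `s * ∑ v ^ ν i ≤ s * m + s * m` and `1 ≤ s`:
`v ^ ν i ≤ 2 * m < v ^ j`, so `ν i < j` for all `i`; hence the image of `univ` is the union over
`b < j` of the images of `{i : ν i = b}` (`Finset.card_biUnion_le`).  For a family `P` of
permutations of `Fin n` use `ι = P` (subtype), `f ρ x = (ρ x : ℕ)`; the image of `P` under
`ρ ↦ (X ×ˢ X).filter (ρ p.1 < ρ p.2)` is the image of `univ` under `ρ ↦ rel (f ρ) X`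
(`Finset.image` over `P.attach`).
-/

set_option autoImplicit false

namespace H43.PS

open Finset

/-- number of orderings of `X` induced by `P` -/
def numOrd (n : ℕ) (P : Finset (Equiv.Perm (Fin n))) (X : Finset (Fin n)) : ℕ :=
  (P.image (fun ρ => (X ×ˢ X).filter (fun p => ρ p.1 < ρ p.2))).card

theorem image_card_inst {β γ : Type} (i1 i2 : DecidableEq γ) (s : Finset β) (g : β → γ) :
    (@Finset.image β γ i1 g s).card = (@Finset.image β γ i2 g s).card := by
  rw [Subsingleton.elim i1 i2]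

theorem total (n m L r s v e j : ℕ) (P : Finset (Equiv.Perm (Fin n))) (hP : P.card = m)
    (hm1 : 1 ≤ m) (hL : 4 * m ≤ 2 ^ L) (hs : 1 ≤ s) (hv : 2 ≤ v) (hLv : L ≤ v) (he : 1 ≤ e)
    (hvj : 2 * m < v ^ j)
    (hn : 2 ^ ((r + 1) * (2 * (r + 1) * (r + 1) * s * v * (2 * m)) + s * (2 ^ r * m + 1)
          + e * (m + 1)) ≤ n) :
    ∃ X : Finset (Fin n), X.card = s * 2 ^ r + e ∧
      numOrd n P X ≤ 2 ^ (e - 1) * ∑ b ∈ range j, Z (2 ^ (r + 1)) ((2 ^ r + 1).factorial) s b := by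
  classical
  set f : ↥P → Fin n → ℕ := fun ρ x => ((ρ.1 x : Fin n) : ℕ) with hf
  have hinj : ∀ ρ : ↥P, Function.Injective (f ρ) := by
    intro ρ x y hxy
    exact ρ.1.injective (Fin.ext hxy)
  have hcard : Fintype.card ↥P = m := by rw [Fintype.card_coe, hP]
  have hones : ∑ i : ↥P, v ^ ((fun _ : ↥P => 0) i) = m := by
    simp only [pow_zero]
    rw [Finset.sum_const, Finset.card_univ, hcard]; simp
  have hseq := seq f hinj m L hcard hm1 hL r s v e hv hLv he s le_rfl (fun _ => 0)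
    (by rw [hones]; exact Nat.mul_le_mul_right _ (Nat.le_add_right _ _)) Finset.univ
    (by rw [Finset.card_univ, Fintype.card_fin]; exact hn)
  obtain ⟨K, ν, -, hK, hsum, hcount⟩ := hseq
  refine ⟨K, hK, ?_⟩
  rw [hones] at hsum
  have hsum' : ∑ i : ↥P, v ^ (ν i) ≤ 2 * m := by
    have h1 : s * ∑ i : ↥P, v ^ (ν i) ≤ s * (2 * m) := by
      calc s * ∑ i : ↥P, v ^ (ν i) = s * ∑ i : ↥P, v ^ (0 + ν i) := by simp only [zero_add]
        _ ≤ s * m + s * m := hsum
        _ = s * (2 * m) := by ring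
    exact Nat.le_of_mul_le_mul_left h1 hs
  have hν : ∀ i, ν i < j := by
    intro i
    by_contra hcon
    have h1 : v ^ j ≤ v ^ (ν i) := Nat.pow_le_pow_right (by omega) (not_lt.1 hcon)
    have h2 : v ^ (ν i) ≤ ∑ i : ↥P, v ^ (ν i) :=
      Finset.single_le_sum (f := fun i => v ^ (ν i)) (fun _ _ => Nat.zero_le _) (Finset.mem_univ i)
    omega
  have hsub : P.image (fun ρ => (K ×ˢ K).filter (fun p => ρ p.1 < ρ p.2)) ⊆
      (range j).biUnion (fun b =>
        ((univ.filter (fun i => ν i = b)).image (fun i => rel (f i) K))) := by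
    intro R hR
    rw [Finset.mem_image] at hR
    obtain ⟨ρ, hρ, rfl⟩ := hR
    rw [Finset.mem_biUnion]
    refine ⟨ν ⟨ρ, hρ⟩, Finset.mem_range.2 (hν _), ?_⟩
    rw [Finset.mem_image]
    refine ⟨⟨ρ, hρ⟩, by simp, ?_⟩
    rfl
  calc numOrd n P K ≤ _ := Finset.card_le_card hsub
    _ ≤ ∑ b ∈ range j, ((univ.filter (fun i => ν i = b)).image (fun i => rel (f i) K)).card :=
        Finset.card_biUnion_le
    _ ≤ ∑ b ∈ range j, 2 ^ (e - 1) * Z (2 ^ (r + 1)) ((2 ^ r + 1).factorial) s b :=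
        Finset.sum_le_sum fun b _ => by
          exact le_trans (le_of_eq (image_card_inst _ _ _ _)) (hcount b)
    _ = _ := by rw [Finset.mul_sum]

end H43.PS
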