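import Pool.Agent.H43.PS.Defs

/-!
# Module TREE: the median tree

Induction on `τ` (generalising `κ` and `Y`).
`τ = 0`: take `𝒞 = {Y}`; a subfamily has at most one member and all `κ i = 0`.
`τ + 1`: there is `i₀` with `0 < κ i₀`; let `κ' = Function.update κ i₀ (κ i₀ - 1)`, with sum `τ`.
Since `2 * (M * 2 ^ τ) ≤ Y.card` and `f i₀` is injective, `Y` is the disjoint union of `Y₀`, `Y₁`
with at least `M * 2 ^ τ` points each and `Y₀` below `Y₁` for `i₀` (for instance: take a lower set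
`Y₀` of `Y` with exactly `M * 2 ^ τ` elements: the proof that for every `t ≤ Y.card` there is
`Y₀ ⊆ Y` with `t` elements and `Below (f i₀) Y₀ (Y \ Y₀)` is an easy induction on `t`, adding
the minimum of the rest).  Apply the induction hypothesis to `(Y₀, κ')` and `(Y₁, κ')` and put
`𝒞 = 𝒞₀ ∪ 𝒞₁`.  These are disjoint as the cells are nonempty (`1 ≤ M`) subsets of the disjoint
sets `Y₀`, `Y₁`.  For `D ⊆ 𝒞` and `T` let `D₀ = D ∩ 𝒞₀`, `D₁ = D ∩ 𝒞₁`.  If `i₀ ∉ T`,
`∑ T κ = ∑ T κ'` and the bounds for `D₀` and `D₁` add up.  If `i₀ ∈ T` then `D₀ = ∅` or `D₁ = ∅`,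
since a member of `D₀` and a member of `D₁` are separated for `i₀` (and different); so
`D.card * 2 ^ (∑ T κ') ≤ 2 ^ τ` and `∑ T κ = ∑ T κ' + 1`.
-/

set_option autoImplicit false

namespace H43.PS

open Finset

theorem exists_lower {α : Type} [DecidableEq α] (g : α → ℕ) (hg : Function.Injective g)
    (Y : Finset α) : ∀ t : ℕ, t ≤ Y.card → ∃ Y₀ ⊆ Y, Y₀.card = t ∧ Below g Y₀ (Y \ Y₀) := by
  intro t
  induction t with
  | zero =>
    intro _
    exact ⟨∅, Finset.empty_subset _, Finset.card_empty, fun a ha => absurd ha (Finset.notMem_empty a)⟩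
  | succ t ih =>
    intro ht
    obtain ⟨Y₀, hY₀, hc, hb⟩ := ih (by omega)
    have hne : (Y \ Y₀).Nonempty := by
      rw [← Finset.card_pos, Finset.card_sdiff_of_subset hY₀]
      omega
    obtain ⟨a, ha, hmin⟩ := Finset.exists_min_image (Y \ Y₀) g hne
    have ha' := Finset.mem_sdiff.1 ha
    refine ⟨insert a Y₀, Finset.insert_subset ha'.1 hY₀, ?_, ?_⟩
    · rw [Finset.card_insert_of_notMem ha'.2, hc]
    · intro x hx y hy
      have hy' := Finset.mem_sdiff.1 hy
      have hy2 : y ≠ a ∧ y ∉ Y₀ := by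
        constructor
        · rintro rfl; exact hy'.2 (Finset.mem_insert_self _ _)
        · intro h; exact hy'.2 (Finset.mem_insert_of_mem h)
      have hy3 : y ∈ Y \ Y₀ := Finset.mem_sdiff.2 ⟨hy'.1, hy2.2⟩
      rcases Finset.mem_insert.1 hx with rfl | hx
      · exact lt_of_le_of_ne (hmin y hy3) fun h => hy2.1 (hg h).symm
      · exact hb x hx y hy3

theorem tree {ι α : Type} [Fintype ι] [DecidableEq ι] [DecidableEq α] (f : ι → α → ℕ)
    (hf : ∀ i, Function.Injective (f i)) (M : ℕ) (hM : 1 ≤ M) :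
    ∀ (τ : ℕ) (κ : ι → ℕ), ∑ i, κ i = τ → ∀ Y : Finset α, M * 2 ^ τ ≤ Y.card →
      ∃ 𝒞 : Finset (Finset α), 𝒞.card = 2 ^ τ ∧ (∀ C ∈ 𝒞, C ⊆ Y ∧ M ≤ C.card) ∧
        (∀ C ∈ 𝒞, ∀ C' ∈ 𝒞, C ≠ C' → Disjoint C C') ∧
        ∀ D ⊆ 𝒞, ∀ T : Finset ι,
          (∀ i ∈ T, ∀ C ∈ D, ∀ C' ∈ D, C ≠ C' → ¬ Sep (f i) C C') →
          D.card * 2 ^ (∑ i ∈ T, κ i) ≤ 2 ^ τ := by
  intro τ
  induction τ with
  | zero =>
    intro κ hκ Y hY
    have hκ0 : ∀ i, κ i = 0 := fun i => (Finset.sum_eq_zero_iff.1 hκ) i (Finset.mem_univ i)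
    refine ⟨{Y}, by simp, ?_, ?_, ?_⟩
    · intro C hC
      rw [Finset.mem_singleton] at hC
      subst hC
      exact ⟨Finset.Subset.refl _, by simpa using hY⟩
    · intro C hC C' hC' hne
      rw [Finset.mem_singleton] at hC hC'
      exact absurd (hC.trans hC'.symm) hne
    · intro D hD T _
      have h1 : ∑ i ∈ T, κ i = 0 := Finset.sum_eq_zero fun i _ => hκ0 i
      rw [h1, pow_zero, mul_one]
      have := Finset.card_le_card hD
      simpa using this
  | succ τ ih =>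
    intro κ hκ Y hY
    have hex : ∃ i₀, 0 < κ i₀ := by
      by_contra hcon
      push Not at hcon
      have : ∑ i, κ i = 0 := Finset.sum_eq_zero fun i _ => Nat.le_zero.1 (hcon i)
      omega
    obtain ⟨i₀, hi₀⟩ := hex
    set κ' : ι → ℕ := Function.update κ i₀ (κ i₀ - 1) with hκ'
    have hsumT : ∀ T : Finset ι, i₀ ∈ T → ∑ i ∈ T, κ i = ∑ i ∈ T, κ' i + 1 := by
      intro T hT
      rw [hκ', Finset.sum_update_of_mem hT, ← Finset.add_sum_erase T κ hT]
      rw [Finset.sdiff_singleton_eq_erase]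
      omega
    have hsumT' : ∀ T : Finset ι, i₀ ∉ T → ∑ i ∈ T, κ i = ∑ i ∈ T, κ' i := by
      intro T hT
      rw [hκ', Finset.sum_update_of_notMem hT]
    have hκ's : ∑ i, κ' i = τ := by
      have := hsumT Finset.univ (Finset.mem_univ _)
      omega
    have hpow : M * 2 ^ (τ + 1) = M * 2 ^ τ + M * 2 ^ τ := by ring
    obtain ⟨Y₀, hY₀, hc₀, hb₀⟩ := exists_lower (f i₀) (hf i₀) Y (M * 2 ^ τ) (by omega)
    have hc₁ : M * 2 ^ τ ≤ (Y \ Y₀).card := by
      rw [Finset.card_sdiff_of_subset hY₀]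
      omega
    obtain ⟨𝒞₀, h01, h02, h03, h04⟩ := ih κ' hκ's Y₀ hc₀.ge
    obtain ⟨𝒞₁, h11, h12, h13, h14⟩ := ih κ' hκ's (Y \ Y₀) hc₁
    have hcross : ∀ C ∈ 𝒞₀, ∀ C' ∈ 𝒞₁, Disjoint C C' := by
      intro C hC C' hC'
      exact Finset.disjoint_of_subset_left (h02 C hC).1
        (Finset.disjoint_of_subset_right (h12 C' hC').1 Finset.disjoint_sdiff)
    have hcrossne : ∀ C ∈ 𝒞₀, ∀ C' ∈ 𝒞₁, C ≠ C' := by
      intro C hC C' hC' h
      have h1 := hcross C hC C' hC'
      rw [← h, Finset.disjoint_self_iff_empty] at h1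
      have h2 := (h02 C hC).2
      rw [h1, Finset.card_empty] at h2
      omega
    have hdisj : Disjoint 𝒞₀ 𝒞₁ := by
      rw [Finset.disjoint_left]
      intro C hC hC'
      exact hcrossne C hC C hC' rfl
    refine ⟨𝒞₀ ∪ 𝒞₁, ?_, ?_, ?_, ?_⟩
    · rw [Finset.card_union_of_disjoint hdisj, h01, h11]; ring
    · intro C hC
      rcases Finset.mem_union.1 hC with h | h
      · exact ⟨(h02 C h).1.trans hY₀, (h02 C h).2⟩
      · exact ⟨(h12 C h).1.trans Finset.sdiff_subset, (h12 C h).2⟩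
    · intro C hC C' hC' hne
      rcases Finset.mem_union.1 hC with h | h <;> rcases Finset.mem_union.1 hC' with h' | h'
      · exact h03 C h C' h' hne
      · exact hcross C h C' h'
      · exact (hcross C' h' C h).symm
      · exact h13 C h C' h' hne
    · intro D hD T hT
      have hDu : D = D ∩ 𝒞₀ ∪ D ∩ 𝒞₁ := by
        rw [← Finset.inter_union_distrib_left, Finset.inter_eq_left.2 hD]
      have hcard : D.card ≤ (D ∩ 𝒞₀).card + (D ∩ 𝒞₁).card := by
        conv_lhs => rw [hDu]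
        exact Finset.card_union_le _ _
      have b0 := h04 (D ∩ 𝒞₀) Finset.inter_subset_right T (fun i hi C hC C' hC' hne =>
        hT i hi C (Finset.mem_inter.1 hC).1 C' (Finset.mem_inter.1 hC').1 hne)
      have b1 := h14 (D ∩ 𝒞₁) Finset.inter_subset_right T (fun i hi C hC C' hC' hne =>
        hT i hi C (Finset.mem_inter.1 hC).1 C' (Finset.mem_inter.1 hC').1 hne)
      by_cases hi : i₀ ∈ T
      · rw [hsumT T hi]
        have hor : D ∩ 𝒞₀ = ∅ ∨ D ∩ 𝒞₁ = ∅ := by
          by_contra hcon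
          push Not at hcon
          obtain ⟨⟨C, hC⟩, ⟨C', hC'⟩⟩ := hcon
          have hC1 := Finset.mem_inter.1 hC
          have hC2 := Finset.mem_inter.1 hC'
          refine hT i₀ hi C hC1.1 C' hC2.1 (hcrossne C hC1.2 C' hC2.2) (Or.inl ?_)
          intro a ha b hb
          exact hb₀ a ((h02 C hC1.2).1 ha) b ((h12 C' hC2.2).1 hb)
        have hD1 : D.card * 2 ^ (∑ i ∈ T, κ' i) ≤ 2 ^ τ := by
          rcases hor with h | h
          · rw [h, Finset.card_empty, zero_add] at hcard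
            exact (Nat.mul_le_mul_right _ hcard).trans b1
          · rw [h, Finset.card_empty, add_zero] at hcard
            exact (Nat.mul_le_mul_right _ hcard).trans b0
        rw [pow_succ, pow_succ, ← mul_assoc]
        exact Nat.mul_le_mul_right _ hD1
      · rw [hsumT' T hi]
        calc D.card * 2 ^ (∑ i ∈ T, κ' i)
            ≤ ((D ∩ 𝒞₀).card + (D ∩ 𝒞₁).card) * 2 ^ (∑ i ∈ T, κ' i) :=
              Nat.mul_le_mul_right _ hcard
          _ = (D ∩ 𝒞₀).card * 2 ^ (∑ i ∈ T, κ' i) + (D ∩ 𝒞₁).card * 2 ^ (∑ i ∈ T, κ' i) := by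
              ring
          _ ≤ 2 ^ τ + 2 ^ τ := Nat.add_le_add b0 b1
          _ = 2 ^ (τ + 1) := by ring

end H43.PS
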